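import Pool.Agent.H4.LU.ConvJ

/-!
# LU Hol: the function `e` is holomorphic without zeros on `V`
-/

set_option autoImplicit false

open Topology Filter MvPolynomial Metric

noncomputable section

namespace Pool.Agent.H4.LU

open Pool.Agent.H17 (PN VanishesAt HolomorphicInto)

variable {M N : ℕ}

theorem mem_mk {Y : Set (PN M)} {x : Fin (M + 1) → ℂ} (hx : x ≠ 0) : Mem Y x ↔ Projectivization.mk ℂ x hx ∈ Y :=
  ⟨fun ⟨_, h⟩ => h, fun h => ⟨hx, h⟩⟩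

theorem val_mk {e : PN M → ℂ} {x : Fin (M + 1) → ℂ} (hx : x ≠ 0) : val e x = e (Projectivization.mk ℂ x hx) := by
  unfold val
  rw [dif_pos hx]

theorem val_smul {e : PN M → ℂ} {x : Fin (M + 1) → ℂ} (hx : x ≠ 0) {a : ℂ} (ha : a ≠ 0) : val e (a • x) = val e x := by
  rw [val_mk hx, val_mk (smul_ne_zero ha hx)]
  congr 1
  exact (Projectivization.mk_eq_mk_iff' ℂ _ _ _ _).2 ⟨a, rfl⟩

/-- a point of `V` is of the first kind -/
theorem inner_of_mem {Y V : Set (PN M)} {e : PN M → ℂ} (hY : IsModel Y V e) {y : PN M} (hy : y ∈ V) : IsInner Y V e y := by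
  have hc : ∀ {k : ℕ} {σ : ℂ × ℂ → Fin (M + 1) → ℂ} {τ : (Fin (M + 1) → ℂ) → ℂ × ℂ}, IsParam Y k σ τ y → Mem V (σ 0) := by
    intro k σ τ h
    obtain ⟨h1, h2⟩ := h.center
    exact ⟨h1, h2 ▸ hy⟩
  rcases hY.point y (hY.sub hy) with h | ⟨σ, τ, h1, c, i, hi, h2⟩ | ⟨k, nd, hor, σ, τ, h1, hk, hnd, h2⟩ | ⟨k, nd, hor, σ, τ, h1, hk, hnd, h2⟩
  · exact h
  · exact absurd (h2.self_of_nhds.1.1 (hc h1)) (by simp)
  · exact absurd (h2.self_of_nhds.1.1 (hc h1)).1 (by simp)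
  · exact absurd (h2.self_of_nhds.1.1 (hc h1)).1 (by simp)

theorem e_ne_zero {Y V : Set (PN M)} {e : PN M → ℂ} (hY : IsModel Y V e) {y : PN M} (hy : y ∈ V) : e y ≠ 0 := by
  obtain ⟨σ, τ, c, i, j, hpar, hi, he⟩ := inner_of_mem hY hy
  obtain ⟨h2, h3⟩ := hpar.center
  have h4 := he.self_of_nhds.2
  rw [val_mk h2, h3] at h4
  rw [h4]
  exact Complex.exp_ne_zero _

/-- **`e` is holomorphic without zeros on `V`.** -/
theorem analyticAt_e {Y V : Set (PN M)} {e : PN M → ℂ} (hY : IsModel Y V e) {g : ℂ → PN M} {z : ℂ} {Φ : ℂ → Fin (M + 1) → ℂ} (hΦ : AnalyticAt ℂ Φ z)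
    (hg : ∀ᶠ w in 𝓝 z, ∃ h : Φ w ≠ 0, g w = Projectivization.mk ℂ (Φ w) h) (hV : ∀ᶠ w in 𝓝 z, g w ∈ V) :
    AnalyticAt ℂ (fun w => e (g w)) z ∧ e (g z) ≠ 0 := by
  obtain ⟨σ, τ, c, i, j, hpar, hi, he⟩ := inner_of_mem hY hV.self_of_nhds
  obtain ⟨h0, h1⟩ := hg.self_of_nhds
  obtain ⟨h2, h3⟩ := hpar.center
  -- scaling
  obtain ⟨a, ha⟩ : ∃ a : ℂ, a • σ 0 = Φ z := (Projectivization.mk_eq_mk_iff' ℂ _ _ _ _).1 (h1.symm.trans h3.symm)
  have ha0 : a ≠ 0 := by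
    rintro rfl
    rw [zero_smul] at ha
    exact h0 ha.symm
  have hΦ' : AnalyticAt ℂ (fun w => a⁻¹ • Φ w) z := (analyticAt_const (v := a⁻¹)).fun_smul hΦ
  have hΦz : a⁻¹ • Φ z = σ 0 := by rw [← ha, smul_smul, inv_mul_cancel₀ ha0, one_smul]
  have hτ : AnalyticAt ℂ (fun w => τ (a⁻¹ • Φ w)) z := AnalyticAt.comp (g := τ) (f := fun w => a⁻¹ • Φ w) (by rw [hΦz]; exact hpar.analytic') hΦ'
  have hτz : τ (a⁻¹ • Φ z) = 0 := by
    rw [hΦz, hpar.coord.self_of_nhds]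
    simp
  have hct : Tendsto (fun w => a⁻¹ • Φ w) (𝓝 z) (𝓝 (σ 0)) := by
    rw [← hΦz]
    exact hΦ'.continuousAt.tendsto
  have hct2 : Tendsto (fun w => τ (a⁻¹ • Φ w)) (𝓝 z) (𝓝 0) := by
    rw [← hτz]
    exact hτ.continuousAt.tendsto
  have heq : ∀ᶠ w in 𝓝 z, e (g w) = Complex.exp (c + (τ (a⁻¹ • Φ w)).1 ^ i * (τ (a⁻¹ • Φ w)).2 ^ j) := by
    filter_upwards [hg, hV, hct.eventually hpar.onto, hct2.eventually he] with w h4 h5 h6 h7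
    obtain ⟨h8, h9⟩ := h4
    have h10 : Mem Y (a⁻¹ • Φ w) := by
      refine ⟨smul_ne_zero (inv_ne_zero ha0) h8, ?_⟩
      have h11 : Projectivization.mk ℂ (a⁻¹ • Φ w) (smul_ne_zero (inv_ne_zero ha0) h8) = Projectivization.mk ℂ (Φ w) h8 :=
        (Projectivization.mk_eq_mk_iff' ℂ _ _ _ _).2 ⟨a⁻¹, rfl⟩
      rw [h11, ← h9]
      exact hY.sub h5
    obtain ⟨b, p, hb, h12, h13⟩ := h6 h10
    rw [pow_one, pow_one] at h13
    have hp : τ (a⁻¹ • Φ w) = p := h13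
    rw [hp] at h7 ⊢
    have hσ : σ p ≠ 0 := h7.1.1
    rw [h9, ← val_mk (e := e) h8, ← val_smul h8 (inv_ne_zero ha0), h12, val_smul hσ hb, h7.2]
  refine ⟨?_, ?_⟩
  · have h4 : AnalyticAt ℂ (fun w => Complex.exp (c + (τ (a⁻¹ • Φ w)).1 ^ i * (τ (a⁻¹ • Φ w)).2 ^ j)) z := by
      have h5 : AnalyticAt ℂ (fun w => (τ (a⁻¹ • Φ w)).1) z := analyticAt_fst.comp hτ
      have h6 : AnalyticAt ℂ (fun w => (τ (a⁻¹ • Φ w)).2) z := analyticAt_snd.comp hτ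
      exact (analyticAt_const.add ((h5.pow i).mul (h6.pow j))).cexp
    exact h4.congr (heq.mono fun w hw => hw.symm)
  · rw [heq.self_of_nhds]
    exact Complex.exp_ne_zero _

/-- `e` is locally the restriction of a holomorphic function. -/
theorem val_analytic {Y V : Set (PN M)} {e : PN M → ℂ} (hY : IsModel Y V e) {x₀ : Fin (M + 1) → ℂ} (hx₀ : Mem V x₀) :
    ∃ p : (Fin (M + 1) → ℂ) → ℂ, AnalyticAt ℂ p x₀ ∧ ∀ᶠ x in 𝓝 x₀, Mem V x → val e x = p x := by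
  obtain ⟨h0, h1⟩ := hx₀
  obtain ⟨σ, τ, c, i, j, hpar, hi, he⟩ := inner_of_mem hY h1
  obtain ⟨h2, h3⟩ := hpar.center
  -- scaling
  obtain ⟨a, ha⟩ : ∃ a : ℂ, a • σ 0 = x₀ := (Projectivization.mk_eq_mk_iff' ℂ _ _ _ _).1 h3.symm
  have ha0 : a ≠ 0 := by
    rintro rfl
    rw [zero_smul] at ha
    exact h0 ha.symm
  have hΦ' : AnalyticAt ℂ (fun x : Fin (M + 1) → ℂ => a⁻¹ • x) x₀ := (analyticAt_const (v := a⁻¹)).fun_smul analyticAt_id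
  have hΦz : a⁻¹ • x₀ = σ 0 := by rw [← ha, smul_smul, inv_mul_cancel₀ ha0, one_smul]
  have hτ : AnalyticAt ℂ (fun x : Fin (M + 1) → ℂ => τ (a⁻¹ • x)) x₀ :=
    AnalyticAt.comp (g := τ) (f := fun x : Fin (M + 1) → ℂ => a⁻¹ • x) (by rw [hΦz]; exact hpar.analytic') hΦ'
  have hτz : τ (a⁻¹ • x₀) = 0 := by
    rw [hΦz, hpar.coord.self_of_nhds]
    simp
  have hct : Tendsto (fun x : Fin (M + 1) → ℂ => a⁻¹ • x) (𝓝 x₀) (𝓝 (σ 0)) := by
    rw [← hΦz]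
    exact hΦ'.continuousAt.tendsto
  have hct2 : Tendsto (fun x : Fin (M + 1) → ℂ => τ (a⁻¹ • x)) (𝓝 x₀) (𝓝 0) := by
    rw [← hτz]
    exact hτ.continuousAt.tendsto
  refine ⟨fun x => Complex.exp (c + (τ (a⁻¹ • x)).1 ^ i * (τ (a⁻¹ • x)).2 ^ j), ?_, ?_⟩
  · have h5 : AnalyticAt ℂ (fun x : Fin (M + 1) → ℂ => (τ (a⁻¹ • x)).1) x₀ := analyticAt_fst.comp hτ
    have h6 : AnalyticAt ℂ (fun x : Fin (M + 1) → ℂ => (τ (a⁻¹ • x)).2) x₀ := analyticAt_snd.comp hτ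
    exact (analyticAt_const.add ((h5.pow i).mul (h6.pow j))).cexp
  · filter_upwards [hct.eventually hpar.onto, hct2.eventually he] with x h6 h7 h5
    obtain ⟨h8, h9⟩ := h5
    have h10 : Mem Y (a⁻¹ • x) := by
      refine ⟨smul_ne_zero (inv_ne_zero ha0) h8, ?_⟩
      have h11 : Projectivization.mk ℂ (a⁻¹ • x) (smul_ne_zero (inv_ne_zero ha0) h8) = Projectivization.mk ℂ x h8 :=
        (Projectivization.mk_eq_mk_iff' ℂ _ _ _ _).2 ⟨a⁻¹, rfl⟩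
      rw [h11]
      exact hY.sub h9
    obtain ⟨b, p, hb, h12, h13⟩ := h6 h10
    rw [pow_one, pow_one] at h13
    have hp : τ (a⁻¹ • x) = p := h13
    show val e x = Complex.exp (c + (τ (a⁻¹ • x)).1 ^ i * (τ (a⁻¹ • x)).2 ^ j)
    rw [hp] at h7 ⊢
    have hσ : σ p ≠ 0 := h7.1.1
    rw [← val_smul h8 (inv_ne_zero ha0), h12, val_smul hσ hb, h7.2]

open Pool.Agent.H62.SA (locVar)
open Pool.Agent.H36.LB (ConvPN IsLimitPN)

/-- Where `F n → f` also `e ∘ j ∘ F n → e ∘ j ∘ f`. -/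
theorem conv_e {Y V : Set (PN M)} {e : PN M → ℂ} (hY : IsModel Y V e) {P : Ideal (MvPolynomial (Fin (N + 1)) ℂ)} {s : ℕ}
    {G : Fin s → MvPolynomial (Fin (N + 1)) ℂ} {j : PN N → PN M} (hj : IsRegularInto P G V e j) {l : Filter ℕ} {F : ℕ → ℂ → PN N} {f : ℂ → PN N}
    (hl : IsLimitPN (locVar P G) l F f) {z₀ : ℂ} (h : ConvPN l F f z₀) :
    ∃ r : ℝ, 0 < r ∧ TendstoLocallyUniformlyOn (fun n z => e (j (F n z))) (fun z => e (j (f z))) l (ball z₀ r) := by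
  have hopen := convPN_open h
  obtain ⟨t, Φ, Φ₀, ht, h1, h2, h3, h4⟩ := conv_j hj hl h
  obtain ⟨h5, h6⟩ := h3 z₀ (mem_ball_self ht)
  have hf0 : f z₀ ∈ locVar P G := hl.mem_of_conv z₀ h
  have hmV : Mem V (Φ₀ z₀) := ⟨h5, by rw [← h6]; exact hj.maps _ hf0⟩
  obtain ⟨p, hp, hpe⟩ := val_analytic hY hmV
  have hcont : ContinuousAt Φ₀ z₀ := (h2.differentiableAt (isOpen_ball.mem_nhds (mem_ball_self ht))).continuousAt
  -- a neighbourhood of `Φ₀ z₀`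
  obtain ⟨ε, hε, hεb⟩ := Metric.eventually_nhds_iff_ball.1 (hp.eventually_analyticAt.and hpe)
  have hev : ∀ᶠ z in 𝓝 z₀, Φ₀ z ∈ ball (Φ₀ z₀) (ε / 2) ∧ z ∈ ball z₀ t ∧ ConvPN l F f z := by
    filter_upwards [hcont.eventually (ball_mem_nhds _ (show 0 < ε / 2 by positivity)), ball_mem_nhds z₀ ht, hopen] with z h7 h8 h9
    exact ⟨h7, h8, h9⟩
  obtain ⟨r, hr, hrb⟩ := Metric.eventually_nhds_iff_ball.1 hev
  have hr2 : closedBall z₀ (r / 2) ⊆ ball z₀ r := closedBall_subset_ball (by linarith)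
  have hr3 : ball z₀ (r / 2) ⊆ ball z₀ r := ball_subset_closedBall.trans hr2
  have hunif : ∀ᶠ n in l, ∀ z ∈ closedBall z₀ (r / 2), dist (Φ₀ z) (Φ n z) < ε / 2 := by
    have h7 := (tendstoLocallyUniformlyOn_iff_tendstoUniformlyOn_of_compact (isCompact_closedBall z₀ (r / 2))).1
      (h4.mono fun z hz => (hrb z (hr2 hz)).2.1)
    exact Metric.tendstoUniformlyOn_iff.1 h7 _ (by positivity)
  have hlim : TendstoLocallyUniformlyOn (fun n z => p (Φ n z)) (fun z => p (Φ₀ z)) l (ball z₀ (r / 2)) := by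
    refine Pool.Agent.H36.LB.tlu_comp (h4.mono fun z hz => (hrb z (hr3 hz)).2.1) (h2.continuousOn.mono fun z hz => (hrb z (hr3 hz)).2.1) ?_
    intro x hx
    exact (hεb _ (ball_subset_ball (by linarith) (hrb x (hr3 hx)).1)).1.continuousAt
  have hbig : ∀ᶠ n in l, ∀ z ∈ ball z₀ (r / 2), F n z ∈ locVar P G := by
    filter_upwards [hl.le_atTop (eventually_ge_atTop ⌈‖z₀‖ + r⌉₊)] with n hn z hz
    refine hl.memF n z ?_
    rw [mem_ball_zero_iff]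
    have h8 : ‖z‖ ≤ ‖z₀‖ + r / 2 := by
      have h9 := norm_sub_norm_le z z₀
      rw [mem_ball, dist_eq_norm] at hz
      linarith
    have h9 : ‖z₀‖ + r ≤ n := (Nat.le_ceil _).trans (Nat.cast_le.2 hn)
    linarith
  refine ⟨r / 2, by positivity, ?_⟩
  have hkey : ∀ᶠ n in l, ∀ z ∈ ball z₀ (r / 2), e (j (F n z)) = p (Φ n z) := by
    filter_upwards [h1, hunif, hbig] with n h7 h8 h9 z hz
    obtain ⟨h10, h11⟩ := h7.2 z (hrb z (hr3 hz)).2.1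
    have h12 : Φ n z ∈ ball (Φ₀ z₀) ε := by
      rw [mem_ball]
      calc dist (Φ n z) (Φ₀ z₀) ≤ dist (Φ n z) (Φ₀ z) + dist (Φ₀ z) (Φ₀ z₀) := dist_triangle _ _ _
        _ < ε := by
          have h13 := h8 z (ball_subset_closedBall hz)
          have h14 := mem_ball.1 (hrb z (hr3 hz)).1
          rw [dist_comm (Φ n z)]
          linarith
    have h13 := (hεb _ h12).2 ⟨h10, by rw [← h11]; exact hj.maps _ (h9 z hz)⟩
    rw [← h13, val_mk h10, ← h11]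
  have hkey0 : ∀ z ∈ ball z₀ (r / 2), e (j (f z)) = p (Φ₀ z) := by
    intro z hz
    obtain ⟨h10, h11⟩ := h3 z (hrb z (hr3 hz)).2.1
    have h12 : Φ₀ z ∈ ball (Φ₀ z₀) ε := ball_subset_ball (by linarith) (hrb z (hr3 hz)).1
    have h13 := (hεb _ h12).2 ⟨h10, by rw [← h11]; exact hj.maps _ (hl.mem_of_conv z (hrb z (hr3 hz)).2.2)⟩
    rw [← h13, val_mk h10, ← h11]
  have hlim2 := hlim.congr_right (fun z hz => (hkey0 z hz).symm)
  rw [Metric.tendstoLocallyUniformlyOn_iff] at hlim2 ⊢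
  intro η hη x hx
  obtain ⟨W, hW, hWn⟩ := hlim2 η hη x hx
  refine ⟨W ∩ ball z₀ (r / 2), inter_mem hW self_mem_nhdsWithin, ?_⟩
  filter_upwards [hWn, hkey] with n h7 h8 z hz
  rw [h8 z hz.2]
  exact h7 z hz.1

end Pool.Agent.H4.LU
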