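import Pool.Agent.H4.LU.ConvJ
import Pool.Agent.H97.LU.Inv

/-!
# LU Limit: `j ∘ f ∘ ψ` is a limit of sections

`e (j (F n z)) = exp (φ n z)`, `φ n → φ`, `φ ∘ ψ = id`.
-/

set_option autoImplicit false

open Topology Filter MvPolynomial Metric

noncomputable section

namespace Pool.Agent.H4.LU

open Pool.Agent.H17 (PN VanishesAt HolomorphicInto vanishesAt_mk_iff)
open Pool.Agent.H62.SA (locVar)
open Pool.Agent.H36.LB (ConvPN IsLimitPN)

variable {M N : ℕ}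

/-- inverses of the maps `θ n`, on larger and larger compact sets -/
theorem exists_inverses {l : Filter ℕ} (hl : l ≤ atTop) {Ω : Set ℂ} (hΩ : IsOpen Ω) {θ : ℕ → ℂ → ℂ} (hθ : TendstoLocallyUniformlyOn θ id l Ω)
    (hd : ∀ K : Set ℂ, K ⊆ Ω → IsCompact K → ∀ᶠ n in l, ∀ z ∈ K, DifferentiableAt ℂ (θ n) z) :
    ∃ κ : ℕ → ℂ → ℂ, ∀ K : Set ℂ, K ⊆ Ω → IsCompact K → ∀ ε : ℝ, 0 < ε → ∀ᶠ n in l, ∃ W : Set ℂ, IsOpen W ∧ K ⊆ W ∧ DifferentiableOn ℂ (κ n) W ∧
      ∀ w ∈ W, θ n (κ n w) = w ∧ ‖κ n w - w‖ < ε := by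
  classical
  -- an exhaustion
  obtain ⟨E, hEc, hEm, hEe⟩ : ∃ E : ℕ → Set ℂ, (∀ m, IsCompact (E m) ∧ E m ⊆ Ω) ∧ Monotone E ∧ ∀ K : Set ℂ, K ⊆ Ω → IsCompact K → ∃ m, K ⊆ E m := by
    refine ⟨fun m => closedBall 0 m ∩ {z | ∀ w, w ∉ Ω → 1 / ((m : ℝ) + 1) ≤ dist z w}, fun m => ⟨?_, ?_⟩, ?_, ?_⟩
    · refine (isCompact_closedBall 0 (m : ℝ)).inter_right ?_
      have h1 : {z : ℂ | ∀ w, w ∉ Ω → 1 / ((m : ℝ) + 1) ≤ dist z w} = ⋂ w, ⋂ (_ : w ∉ Ω), {z : ℂ | 1 / ((m : ℝ) + 1) ≤ dist z w} := by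
        ext z
        simp
      rw [h1]
      exact isClosed_iInter fun w => isClosed_iInter fun _ => isClosed_le continuous_const (by fun_prop)
    · rintro z ⟨-, hz⟩
      by_contra hcon
      have h1 := hz z hcon
      rw [dist_self] at h1
      have h2 : 0 < 1 / ((m : ℝ) + 1) := by positivity
      linarith
    · intro m m' hmm z hz
      have hmm' : (m : ℝ) ≤ m' := Nat.cast_le.2 hmm
      refine ⟨closedBall_subset_closedBall hmm' hz.1, fun w hw => le_trans ?_ (hz.2 w hw)⟩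
      exact one_div_le_one_div_of_le (by positivity) (by linarith)
    · intro K hKΩ hK
      obtain ⟨r, hr, hrK⟩ := hK.exists_cthickening_subset_open hΩ hKΩ
      obtain ⟨R, hR⟩ := hK.isBounded.subset_closedBall 0
      obtain ⟨m, hm⟩ := exists_nat_gt (max R (1 / r))
      refine ⟨m, fun z hz => ⟨closedBall_subset_closedBall ((le_max_left _ _).trans hm.le) (hR hz), fun w hw => ?_⟩⟩
      by_contra hcon
      push Not at hcon
      apply hw
      apply hrK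
      refine mem_cthickening_of_dist_le w z r K hz ?_
      have h1 : 1 / r < (m : ℝ) + 1 := by
        have := (le_max_right R (1 / r)).trans hm.le
        linarith
      have h2 : 1 / ((m : ℝ) + 1) < r := by
        rw [div_lt_iff₀ (by positivity)]
        rw [div_lt_iff₀ hr] at h1
        linarith
      rw [dist_comm]
      linarith
  let P : ℕ → ℕ → Prop := fun n m => ∃ (W : Set ℂ) (κ : ℂ → ℂ), IsOpen W ∧ E m ⊆ W ∧ DifferentiableOn ℂ κ W ∧
      ∀ w ∈ W, θ n (κ w) = w ∧ ‖κ w - w‖ < 1 / ((m : ℝ) + 1)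
  have hP : ∀ m, ∀ᶠ n in l, P n m := fun m =>
    Pool.Agent.H97.LU.exists_inverse hΩ hθ hd (hEc m).1 (hEc m).2 (by positivity)
  let mm : ℕ → ℕ := fun n => Nat.findGreatest (P n) n
  have hmm : ∀ m, ∀ᶠ n in l, m ≤ mm n ∧ P n (mm n) := by
    intro m
    filter_upwards [hP m, hl (eventually_ge_atTop m)] with n h1 h2
    exact ⟨Nat.le_findGreatest h2 h1, Nat.findGreatest_spec h2 h1⟩
  refine ⟨fun n => if h : P n (mm n) then h.choose_spec.choose else id, fun K hKΩ hK ε hε => ?_⟩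
  obtain ⟨m₁, hm₁⟩ := hEe K hKΩ hK
  obtain ⟨m₂, hm₂⟩ := exists_nat_gt (1 / ε)
  filter_upwards [hmm (max m₁ m₂)] with n hn
  obtain ⟨h1, h2⟩ := hn
  obtain ⟨h3, h4, h5, h6⟩ := h2.choose_spec.choose_spec
  simp only [dif_pos h2]
  refine ⟨h2.choose, h3, (hm₁.trans (hEm ((le_max_left _ _).trans h1))).trans h4, h5, fun w hw => ⟨(h6 w hw).1, (h6 w hw).2.trans ?_⟩⟩
  have h7 : (m₂ : ℝ) ≤ mm n := Nat.cast_le.2 ((le_max_right _ _).trans h1)
  rw [div_lt_iff₀ (by positivity)]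
  rw [div_lt_iff₀ hε] at hm₂
  nlinarith

/-- substitution in a locally uniform limit -/
theorem tlu_subst {E : Type} [NormedAddCommGroup E] {l : Filter ℕ} {Φ : ℕ → ℂ → E} {Φ₀ : ℂ → E} {U : Set ℂ} (hU : IsOpen U)
    (h : TendstoLocallyUniformlyOn Φ Φ₀ l U) (hc : ContinuousOn Φ₀ U) {g : ℕ → ℂ → ℂ} {g₀ : ℂ → ℂ} {W : Set ℂ}
    (hg : TendstoLocallyUniformlyOn g g₀ l W) (hgc : ContinuousOn g₀ W) (hgU : ∀ w ∈ W, g₀ w ∈ U) :
    TendstoLocallyUniformlyOn (fun n w => Φ n (g n w)) (fun w => Φ₀ (g₀ w)) l W := by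
  rw [tendstoLocallyUniformlyOn_iff_forall_tendsto] at h hg ⊢
  intro x hx
  have h1 : Tendsto (fun y : ℕ × ℂ => g₀ y.2) (l ×ˢ 𝓝[W] x) (𝓝 (g₀ x)) := (hgc x hx).tendsto.comp tendsto_snd
  have h2 : Tendsto (fun y : ℕ × ℂ => g y.1 y.2) (l ×ˢ 𝓝[W] x) (𝓝 (g₀ x)) := by
    rw [Metric.tendsto_nhds] at h1 ⊢
    intro ε hε
    have h4 := (hg x hx) (Metric.dist_mem_uniformity (show (0 : ℝ) < ε / 2 by positivity))
    filter_upwards [h1 (ε / 2) (by positivity), h4] with y hy1 hy2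
    have hy2 : dist (g₀ y.2) (g y.1 y.2) < ε / 2 := hy2
    calc dist (g y.1 y.2) (g₀ x) ≤ dist (g y.1 y.2) (g₀ y.2) + dist (g₀ y.2) (g₀ x) := dist_triangle _ _ _
      _ < ε := by rw [dist_comm (g y.1 y.2)]; linarith
  have hcx : ContinuousAt Φ₀ (g₀ x) := hc.continuousAt (hU.mem_nhds (hgU x hx))
  have h3 : Tendsto (fun y : ℕ × ℂ => (y.1, g y.1 y.2)) (l ×ˢ 𝓝[W] x) (l ×ˢ 𝓝[U] (g₀ x)) := by
    rw [hU.nhdsWithin_eq (hgU x hx)]
    exact tendsto_fst.prodMk h2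
  have h4 := (h (g₀ x) (hgU x hx)).comp h3
  have h5 : Tendsto (fun y : ℕ × ℂ => Φ₀ (g y.1 y.2)) (l ×ˢ 𝓝[W] x) (𝓝 (Φ₀ (g₀ x))) := hcx.tendsto.comp h2
  have h6 : Tendsto (fun y : ℕ × ℂ => Φ y.1 (g y.1 y.2)) (l ×ˢ 𝓝[W] x) (𝓝 (Φ₀ (g₀ x))) := by
    rw [Metric.tendsto_nhds] at h5 ⊢
    intro ε hε
    have h7 := h4 (Metric.dist_mem_uniformity (show (0 : ℝ) < ε / 2 by positivity))
    filter_upwards [h5 (ε / 2) (by positivity), h7] with y hy1 hy2
    have hy2 : dist (Φ₀ (g y.1 y.2)) (Φ y.1 (g y.1 y.2)) < ε / 2 := hy2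
    calc dist (Φ y.1 (g y.1 y.2)) (Φ₀ (g₀ x)) ≤ dist (Φ y.1 (g y.1 y.2)) (Φ₀ (g y.1 y.2)) + dist (Φ₀ (g y.1 y.2)) (Φ₀ (g₀ x)) := dist_triangle _ _ _
      _ < ε := by rw [dist_comm (Φ y.1 (g y.1 y.2))]; linarith
  have h7 : Tendsto (fun y : ℕ × ℂ => (Φ₀ (g₀ y.2), Φ y.1 (g y.1 y.2))) (l ×ˢ 𝓝[W] x) (𝓝 (Φ₀ (g₀ x), Φ₀ (g₀ x))) :=
    (hcx.tendsto.comp h1).prodMk_nhds h6
  exact h7.mono_right (nhds_le_uniformity _)

/-- **`j ∘ f ∘ ψ` is a limit of sections.** -/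
theorem lim_of_phases {P : Ideal (MvPolynomial (Fin (N + 1)) ℂ)} {s : ℕ} {G : Fin s → MvPolynomial (Fin (N + 1)) ℂ} {V : Set (PN M)} {e : PN M → ℂ}
    {j : PN N → PN M} (hj : IsRegularInto P G V e j) {l : Filter ℕ} {F : ℕ → ℂ → PN N} {f : ℂ → PN N} (hl : IsLimitPN (locVar P G) l F f)
    {a b c : ℂ} {φn : ℕ → ℂ → ℂ}
    (h1 : ∀ R : ℝ, ∀ᶠ n in l, DifferentiableOn ℂ (φn n) (ball 0 R) ∧ ∀ z ∈ ball (0 : ℂ) R, e (j (F n z)) = Complex.exp (φn n z))
    (h2 : TendstoLocallyUniformlyOn φn (fun z => a * z ^ 2 + b * z + c) l Set.univ)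
    (h3 : ∀ z, ConvPN l F f z → e (j (f z)) = Complex.exp (a * z ^ 2 + b * z + c)) : Lim V e j l F f a b c := by
  haveI := hl.neBot
  refine ⟨h3, fun Ω ψ hΩ hΩc hψ hφψ => ?_⟩
  have hψc : ContinuousOn ψ Ω := hψ.continuousOn
  -- the maps `θ n = φ n ∘ ψ`
  have hθ : TendstoLocallyUniformlyOn (fun n z => φn n (ψ z)) id l Ω := by
    have h4 := h2.comp ψ (Set.mapsTo_univ ψ Ω) hψc
    refine h4.congr_right fun z hz => ?_
    simpa using hφψ z hz
  have hd : ∀ K : Set ℂ, K ⊆ Ω → IsCompact K → ∀ᶠ n in l, ∀ z ∈ K, DifferentiableAt ℂ (fun z => φn n (ψ z)) z := by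
    intro K hK hKc
    obtain ⟨R, hR⟩ := (hKc.image_of_continuousOn (hψc.mono hK)).isBounded.subset_ball 0
    filter_upwards [h1 R] with n hn z hz
    have h5 : DifferentiableAt ℂ (φn n) (ψ z) := hn.1.differentiableAt (isOpen_ball.mem_nhds (hR (Set.mem_image_of_mem ψ hz)))
    exact h5.comp z (hψ.differentiableAt (hΩ.mem_nhds (hK hz)))
  obtain ⟨κ, hκ⟩ := exists_inverses hl.le_atTop hΩ hθ hd
  refine ⟨?_, l, fun n z => j (F n (ψ (κ n z))), hl.neBot, ?_, ?_⟩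
  · -- the exceptional set is discrete
    intro z hz
    have ht : Tendsto ψ (𝓝[≠] z) (𝓝[≠] (ψ z)) := by
      rw [tendsto_nhdsWithin_iff]
      refine ⟨(hψc.continuousAt (hΩ.mem_nhds hz)).tendsto.mono_left nhdsWithin_le_nhds, ?_⟩
      filter_upwards [nhdsWithin_le_nhds (hΩ.mem_nhds hz), self_mem_nhdsWithin] with w hw hwz hcon
      apply hwz
      have h5 : ψ w = ψ z := hcon
      have h6 := hφψ w hw
      rw [h5, hφψ z hz] at h6
      exact h6.symm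
    filter_upwards [ht.eventually (hl.conv (ψ z))] with w hw hw'
    exact hw' hw
  · -- sections
    intro K hKΩ hK
    obtain ⟨r, hr, hrK⟩ := hK.exists_cthickening_subset_open hΩ hKΩ
    have hKr : IsCompact (cthickening r K) := hK.cthickening
    obtain ⟨R, hR⟩ := (hKr.image_of_continuousOn (hψc.mono hrK)).isBounded.subset_ball 0
    filter_upwards [h1 R, hκ K hKΩ hK (r / 2) (by positivity), hl.le_atTop (eventually_ge_atTop ⌈R⌉₊)] with n hn1 hn2 hn3 z hz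
    obtain ⟨W, hW, hKW, hκd, hκW⟩ := hn2
    have hnear : ∀ᶠ w in 𝓝 z, w ∈ W ∧ κ n w ∈ Ω ∧ ψ (κ n w) ∈ ball (0 : ℂ) R := by
      filter_upwards [hW.mem_nhds (hKW hz), ball_mem_nhds z (show 0 < r / 2 by positivity)] with w hw hw'
      have h5 : κ n w ∈ cthickening r K := by
        refine mem_cthickening_of_dist_le _ z r K hz ?_
        calc dist (κ n w) z ≤ dist (κ n w) w + dist w z := dist_triangle _ _ _
          _ ≤ r / 2 + r / 2 := by
            refine add_le_add ?_ (mem_ball.1 hw').le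
            rw [dist_eq_norm]
            exact (hκW w hw).2.le
          _ = r := by ring
      exact ⟨hw, hrK h5, hR (Set.mem_image_of_mem ψ h5)⟩
    have hsub : ball (0 : ℂ) R ⊆ ball 0 (n + 1) := by
      refine ball_subset_ball ?_
      have h5 : R ≤ n := (Nat.le_ceil R).trans (Nat.cast_le.2 hn3)
      linarith
    obtain ⟨h5, h6, h7⟩ := hnear.self_of_nhds
    have hκa : AnalyticAt ℂ (κ n) z := hκd.analyticAt (hW.mem_nhds h5)
    have hψa : AnalyticAt ℂ ψ (κ n z) := hψ.analyticAt (hΩ.mem_nhds h6)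
    have hca : AnalyticAt ℂ (fun w => ψ (κ n w)) z := hψa.comp hκa
    refine ⟨?_, ?_⟩
    · obtain ⟨Φ, hΦ, hΦe⟩ := holInto_j hj isOpen_ball (hl.holF n) (hl.memF n) (ψ (κ n z)) (hsub h7)
      exact ⟨fun w => Φ (ψ (κ n w)), AnalyticAt.comp (g := Φ) (f := fun w => ψ (κ n w)) hΦ hca, hca.continuousAt.eventually hΦe⟩
    · filter_upwards [hnear] with w hw
      obtain ⟨h8, h9, h10⟩ := hw
      refine ⟨hj.maps _ (hl.memF n _ (hsub h10)), ?_⟩
      rw [hn1.2 _ h10]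
      exact congrArg Complex.exp (hκW w h8).1
  · -- convergence
    intro z hz hzc
    have hzc' : ConvPN l F f (ψ z) := by
      by_contra hcon
      exact hzc hcon
    obtain ⟨t, Φ, Φ₀, ht, h4, h5, h6, h7⟩ := conv_j hj hl hzc'
    have hev : ∀ᶠ w in 𝓝 z, w ∈ Ω ∧ ψ w ∈ ball (ψ z) t := by
      filter_upwards [hΩ.mem_nhds hz, (hψc.continuousAt (hΩ.mem_nhds hz)).eventually (ball_mem_nhds _ ht)] with w h8 h9
      exact ⟨h8, h9⟩
    obtain ⟨r, hr, hrb⟩ := Metric.eventually_nhds_iff_ball.1 hev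
    have hK1 : closedBall z (r / 4) ⊆ Ω := fun w hw => (hrb w (closedBall_subset_ball (by linarith) hw)).1
    have hgood : ∀ᶠ n in l, ∃ W : Set ℂ, IsOpen W ∧ closedBall z (r / 4) ⊆ W ∧ DifferentiableOn ℂ (κ n) W ∧
        ∀ w ∈ closedBall z (r / 4), κ n w ∈ ball z r := by
      filter_upwards [hκ _ hK1 (isCompact_closedBall z (r / 4)) (r / 4) (by positivity)] with n hn
      obtain ⟨W, hW, hKW, hκd, hκW⟩ := hn
      refine ⟨W, hW, hKW, hκd, fun w hw => ?_⟩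
      rw [mem_ball]
      calc dist (κ n w) z ≤ dist (κ n w) w + dist w z := dist_triangle _ _ _
        _ < r := by
          have h8 := (hκW w (hKW hw)).2
          rw [← dist_eq_norm] at h8
          have h9 := mem_closedBall.1 hw
          linarith
    have hball : ball z (r / 4) ⊆ ball z r := ball_subset_ball (by linarith)
    refine ⟨r / 4, fun n w => Φ n (ψ (κ n w)), fun w => Φ₀ (ψ w), by positivity, ?_, ?_, ?_, ?_⟩
    · filter_upwards [h4, hgood] with n hn1 hn2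
      obtain ⟨W, hW, hKW, hκd, hκW⟩ := hn2
      refine ⟨fun w hw => ?_, fun w hw => hn1.2 _ (hrb _ (hκW w (ball_subset_closedBall hw))).2⟩
      have h8 := hrb _ (hκW w (ball_subset_closedBall hw))
      have h9 : DifferentiableAt ℂ (κ n) w := hκd.differentiableAt (hW.mem_nhds (hKW (ball_subset_closedBall hw)))
      have h10 : DifferentiableAt ℂ (fun w => ψ (κ n w)) w := (hψ.differentiableAt (hΩ.mem_nhds h8.1)).comp w h9
      exact (DifferentiableAt.comp (g := Φ n) w (hn1.1.differentiableAt (isOpen_ball.mem_nhds h8.2)) h10).differentiableWithinAt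
    · intro w hw
      have h8 := hrb _ (hball hw)
      exact (DifferentiableAt.comp (g := Φ₀) w (h5.differentiableAt (isOpen_ball.mem_nhds h8.2))
        (hψ.differentiableAt (hΩ.mem_nhds h8.1))).differentiableWithinAt
    · exact fun w hw => h6 _ (hrb _ (hball hw)).2
    · -- `ψ ∘ κ n → ψ`
      refine tlu_subst isOpen_ball h7 h5.continuousOn ?_ (hψc.mono fun w hw => (hrb w (hball hw)).1) fun w hw => (hrb w (hball hw)).2
      have hκt : TendstoLocallyUniformlyOn κ id l (ball z (r / 4)) := by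
        rw [Metric.tendstoLocallyUniformlyOn_iff]
        intro ε hε x hx
        refine ⟨ball z (r / 4), mem_nhdsWithin_of_mem_nhds (isOpen_ball.mem_nhds hx), ?_⟩
        filter_upwards [hκ _ hK1 (isCompact_closedBall z (r / 4)) ε hε] with n hn w hw
        obtain ⟨W, hW, hKW, hκd, hκW⟩ := hn
        rw [id, dist_comm, dist_eq_norm]
        exact (hκW w (hKW (ball_subset_closedBall hw))).2
      refine tlu_subst (Φ := fun _ => ψ) hΩ ?_ hψc hκt continuousOn_id fun w hw => (hrb w (hball hw)).1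
      rw [Metric.tendstoLocallyUniformlyOn_iff]
      intro ε hε x hx
      exact ⟨Set.univ, univ_mem, Eventually.of_forall fun n w _ => by simpa using hε⟩

end Pool.Agent.H4.LU
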