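import Pool.Agent.H4.LU.ConvJ

/-!
# LU Caught: all limit curves of order two are caught

* `comp_identity`: if `J z = f (φ z)` near one point, then it is true outside `φ⁻¹ B`.
* `poly_of_out`: a member of the finite list which comes from a limit curve is given by polynomials in `exp (z / q)`.
* `caught_of_out`: the result.
-/

set_option autoImplicit false

open Topology Filter MvPolynomial Metric

noncomputable section

namespace Pool.Agent.H4.LU

open Pool.Agent.H17 (PN VanishesAt HolomorphicInto vanishesAt_mk_iff)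
open Pool.Agent.H62.SA (locVar)
open Pool.Agent.H7.Per (prP per)
open Pool.Agent.H7.Bir (vals rmap exists_comp pn_identity)
open Pool.Agent.H36.LB (ConvPN IsLimitPN)
open Pool.Agent.H13.OT (OrderTwo)

variable {M N : ℕ}

/-- a discrete set is countable -/
theorem countable_of_discrete {B : Set ℂ} (hB : ∀ z, ∀ᶠ w in 𝓝[≠] z, w ∉ B) : B.Countable := by
  have h1 : DiscreteTopology B := by
    rw [discreteTopology_subtype_iff]
    intro x _
    have h2 := hB x
    rw [← disjoint_iff, Filter.disjoint_principal_right]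
    exact h2
  exact Set.countable_coe_iff.1 (countable_of_Lindelof_of_discrete (X := B))

/-- the preimage of a countable set under a polynomial of degree one or two is countable -/
theorem countable_preimage {a b c : ℂ} (hab : a ≠ 0 ∨ b ≠ 0) {B : Set ℂ} (hB : B.Countable) :
    {z : ℂ | a * z ^ 2 + b * z + c ∈ B}.Countable := by
  have h1 : {z : ℂ | a * z ^ 2 + b * z + c ∈ B} = ⋃ w ∈ B, {z : ℂ | a * z ^ 2 + b * z + c = w} := by
    ext z
    simp
  rw [h1]
  refine hB.biUnion fun w _ => Set.Finite.countable ?_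
  let p : Polynomial ℂ := Polynomial.C a * Polynomial.X ^ 2 + Polynomial.C b * Polynomial.X + Polynomial.C (c - w)
  have hp : p ≠ 0 := by
    intro h
    rcases hab with h2 | h2
    · apply h2
      have h3 : p.coeff 2 = 0 := by rw [h]; simp
      simpa [p, Polynomial.coeff_X, Polynomial.coeff_C] using h3
    · apply h2
      have h3 : p.coeff 1 = 0 := by rw [h]; simp
      simpa [p, Polynomial.coeff_X, Polynomial.coeff_C, Polynomial.coeff_X_pow] using h3
  refine (Polynomial.finite_setOf_isRoot hp).subset ?_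
  intro z hz
  have hz' : a * z ^ 2 + b * z + c = w := hz
  simp only [Set.mem_setOf_eq, Polynomial.IsRoot.def, p, Polynomial.eval_add, Polynomial.eval_mul, Polynomial.eval_C, Polynomial.eval_pow,
    Polynomial.eval_X]
  rw [← hz']
  ring

/-- composition of a holomorphic map into `ℙ^M` with a holomorphic function -/
theorem holInto_comp {f : ℂ → PN M} {φ : ℂ → ℂ} {U V : Set ℂ} (hf : HolomorphicInto f V) (hφ : ∀ z ∈ U, AnalyticAt ℂ φ z) (hUV : ∀ z ∈ U, φ z ∈ V) :
    HolomorphicInto (fun z => f (φ z)) U := by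
  intro z hz
  obtain ⟨Φ, hΦ, he⟩ := hf (φ z) (hUV z hz)
  exact ⟨fun w => Φ (φ w), hΦ.comp (hφ z hz), (hφ z hz).continuousAt.eventually he⟩

theorem holInto_mono {f : ℂ → PN M} {U V : Set ℂ} (hf : HolomorphicInto f V) (hUV : U ⊆ V) : HolomorphicInto f U :=
  fun z hz => hf z (hUV hz)

/-- identity theorem -/
theorem comp_identity {B : Set ℂ} (hBd : ∀ b, ∀ᶠ w in 𝓝[≠] b, w ∉ B) {f : ℂ → PN M} (hf : HolomorphicInto f Bᶜ) {a b c : ℂ}
    (hab : a ≠ 0 ∨ b ≠ 0) {J : ℂ → PN M} (hJ : HolomorphicInto J Set.univ) {z₁ : ℂ} (hz₁ : a * z₁ ^ 2 + b * z₁ + c ∉ B)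
    (h : ∀ᶠ z in 𝓝 z₁, J z = f (a * z ^ 2 + b * z + c)) : ∀ z, a * z ^ 2 + b * z + c ∉ B → J z = f (a * z ^ 2 + b * z + c) := by
  have h1 : IsPreconnected {z : ℂ | a * z ^ 2 + b * z + c ∈ B}ᶜ :=
    (Set.Countable.isPathConnected_compl_of_one_lt_rank (by rw [Complex.rank_real_complex]; exact Nat.one_lt_ofNat)
      (countable_preimage hab (countable_of_discrete hBd))).isConnected.isPreconnected
  have h2 : HolomorphicInto (fun z => f (a * z ^ 2 + b * z + c)) {z : ℂ | a * z ^ 2 + b * z + c ∈ B}ᶜ :=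
    holInto_comp hf (fun z _ => by fun_prop) fun z hz => hz
  intro z hz
  exact pn_identity h1 (holInto_mono hJ (Set.subset_univ _)) h2 hz₁ h z hz

/-- entire extensions of the members of the list are given by polynomials -/
theorem poly_of_entire {V : Set (PN M)} {e : PN M → ℂ} {q : ℕ} {B : Set ℂ} {ι : Type} {f : ι → ℂ → PN M} (O : Out V e q B f) {i : ι}
    {f' : ℂ → PN M} (hf' : HolomorphicInto f' Set.univ) (h : ∀ z, z ∉ B → f' z = f i z) :
    ∃ p : Fin (M + 1) → Polynomial ℂ, ∀ z, ∃ h : (fun a => (p a).eval (Complex.exp (z / q))) ≠ 0, f' z = Projectivization.mk ℂ _ h := by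
  have hBi : ∀ z, z ∉ B → z + 2 * Real.pi * Complex.I * q ∉ B := by
    intro z hz hz'
    apply hz
    have := O.B_inv _ hz' (-1)
    simpa using this
  refine Pool.Agent.H7.Per.exists_rational hf' O.q_pos ?_ ?_
  · -- period
    have h1 : HolomorphicInto (fun z => f' (z + 2 * Real.pi * Complex.I * q)) Set.univ :=
      holInto_comp hf' (fun z _ => by fun_prop) fun z _ => Set.mem_univ _
    obtain ⟨z₀, hz₀⟩ : ∃ z₀, z₀ ∉ B := by
      obtain ⟨z₀, hz₀⟩ := (O.discrete 0).exists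
      exact ⟨z₀, hz₀⟩
    intro z
    have h2 : (z + (per q : ℂ) * Complex.I : ℂ) = z + 2 * Real.pi * Complex.I * q := by
      unfold Pool.Agent.H7.Per.per
      push_cast
      ring
    rw [h2]
    refine pn_identity isPreconnected_univ h1 hf' (Set.mem_univ z₀) ?_ z (Set.mem_univ z)
    filter_upwards [O.closed.isOpen_compl.mem_nhds hz₀] with w hw
    rw [h w hw, h _ (hBi w hw), O.per i w hw]
  · intro ε hε
    obtain ⟨W, hW⟩ := O.B_re
    obtain ⟨X₀, hX₀⟩ := O.short i (per q) ε hε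
    refine ⟨max X₀ W + 1, fun z w hz hre him => ?_⟩
    have hzX : X₀ < |z.re| := lt_of_le_of_lt (le_max_left X₀ W) (by linarith)
    have hzW : W < |z.re| := lt_of_le_of_lt (le_max_right X₀ W) (by linarith)
    have hzB : z ∉ B := fun hzB => by
      have := hW z hzB
      linarith
    have hwB : w ∉ B := fun hwB => by
      have h1 := hW w hwB
      rw [hre] at h1
      linarith
    have hn : ‖w - z‖ ≤ per q := by
      have h1 : w - z = ((w.im - z.im : ℝ) : ℂ) * Complex.I := by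
        apply Complex.ext
        · simp [hre]
        · simp
      rw [h1, norm_mul, Complex.norm_I, mul_one, Complex.norm_real]
      exact him
    rw [h z hzB, h w hwB, dist_comm]
    exact (hX₀ z w hzX hn).le

/-- A member of the list which comes from a limit curve is given by polynomials in `exp (z / q)`. -/
theorem poly_of_out {V : Set (PN M)} {e : PN M → ℂ} {q : ℕ} {B : Set ℂ} {ι : Type} {f : ι → ℂ → PN M} (O : Out V e q B f) {i : ι}
    {a b c : ℂ} (hab : a ≠ 0 ∨ b ≠ 0) {J : ℂ → PN M} (hJ : HolomorphicInto J Set.univ) {z₁ : ℂ} (hz₁ : a * z₁ ^ 2 + b * z₁ + c ∉ B)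
    (h : ∀ᶠ z in 𝓝 z₁, J z = f i (a * z ^ 2 + b * z + c)) :
    ∃ p : Fin (M + 1) → Polynomial ℂ, ∀ z, z ∉ B → ∃ h : (fun a => (p a).eval (Complex.exp (z / q))) ≠ 0, f i z = Projectivization.mk ℂ _ h := by
  have h1 := comp_identity O.discrete (O.hol i) hab hJ hz₁ h
  have hc : (2 * Real.pi * Complex.I * q : ℂ) ≠ 0 := by
    have hq : (q : ℂ) ≠ 0 := by
      have := O.q_pos
      exact Nat.cast_ne_zero.2 (by omega)
    have h2 : (2 * Real.pi * Complex.I : ℂ) ≠ 0 := Complex.two_pi_I_ne_zero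
    exact mul_ne_zero h2 hq
  have hBi : ∀ z, z ∉ B → ∀ k : ℤ, z + k * (2 * Real.pi * Complex.I * q) ∉ B := by
    intro z hz k hz'
    apply hz
    have := O.B_inv _ hz' (-k)
    push_cast at this
    simpa using this
  have hper : ∀ k : ℤ, ∀ z, z ∉ B → f i (z + k * (2 * Real.pi * Complex.I * q)) = f i z := by
    intro k
    induction k with
    | zero => intro z _; simp
    | succ k ih =>
      intro z hz
      have h3 := O.per i _ (hBi z hz k)
      rw [ih z hz] at h3
      rw [← h3]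
      congr 1
      push_cast
      ring
    | pred k ih =>
      intro z hz
      have h3 := O.per i _ (hBi z hz (-(k : ℤ) - 1))
      have h4 : z + ((-(k : ℤ) - 1 : ℤ) : ℂ) * (2 * Real.pi * Complex.I * q) + 2 * Real.pi * Complex.I * q =
          z + ((-(k : ℤ) : ℤ) : ℂ) * (2 * Real.pi * Complex.I * q) := by
        push_cast
        ring
      rw [h4, ih z hz] at h3
      exact h3.symm
  obtain ⟨f', hf', hff'⟩ := section_entire O.closed O.discrete (O.hol i) (c := 2 * Real.pi * Complex.I * q) hper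
    (φ := fun z => a * z ^ 2 + b * z + c) (fun z => by fun_prop) (fun w => surj_of_quadratic hab hc w) hJ h1
  obtain ⟨p, hp⟩ := poly_of_entire O hf' hff'
  exact ⟨p, fun z hz => by
    obtain ⟨h5, h6⟩ := hp z
    exact ⟨h5, by rw [← hff' z hz, h6]⟩⟩

/-- a branch of the square root: a right inverse of a polynomial of degree two on a half plane -/
theorem exists_branch {a b c : ℂ} (ha : a ≠ 0) : ∃ (ρ : ℝ) (ψ : ℂ → ℂ), DifferentiableOn ℂ ψ (HPl 1 ρ) ∧
    ∀ z ∈ HPl 1 ρ, a * ψ z ^ 2 + b * ψ z + c = z := by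
  set v : ℂ := c - b ^ 2 / (4 * a) with hv
  obtain ⟨κ, hκ⟩ := IsAlgClosed.exists_pow_nat_eq (Complex.I / a) (by norm_num : 0 < 2)
  have hre : ∀ z ∈ HPl 1 v.im, 0 < ((z - v) * (-Complex.I)).re := by
    intro z hz
    have hz' : v.im < 1 * z.im := hz
    simp only [Complex.mul_re, Complex.sub_re, Complex.sub_im, Complex.neg_re, Complex.neg_im, Complex.I_re, Complex.I_im]
    linarith
  refine ⟨v.im, fun z => -b / (2 * a) + κ * Complex.exp (Complex.log ((z - v) * (-Complex.I)) / 2), ?_, ?_⟩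
  · intro z hz
    have h1 : DifferentiableAt ℂ (fun z : ℂ => Complex.log ((z - v) * (-Complex.I))) z :=
      DifferentiableAt.clog (by fun_prop) (Or.inl (hre z hz))
    exact ((((h1.div_const 2).cexp).const_mul κ).const_add _).differentiableWithinAt
  · intro z hz
    have h1 : (z - v) * (-Complex.I) ≠ 0 := by
      intro h2
      have h3 := hre z hz
      rw [h2, Complex.zero_re] at h3
      exact lt_irrefl _ h3
    have h2 : Complex.exp (Complex.log ((z - v) * (-Complex.I)) / 2) ^ 2 = (z - v) * (-Complex.I) := by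
      rw [← Complex.exp_nat_mul]
      push_cast
      rw [mul_div_cancel₀ _ (two_ne_zero), Complex.exp_log h1]
    set E := Complex.exp (Complex.log ((z - v) * (-Complex.I)) / 2) with hE
    have h4 : (κ * E) ^ 2 = (z - v) / a := by
      rw [mul_pow, hκ, h2]
      have h5 := Complex.I_mul_I
      field_simp
      linear_combination -(z - v) * h5
    have h5 : a * (κ * E) ^ 2 = z - v := by
      rw [h4]
      field_simp
    have h6 : a * (-b / (2 * a) + κ * E) ^ 2 + b * (-b / (2 * a) + κ * E) + c = a * (κ * E) ^ 2 + v := by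
      rw [hv]
      field_simp
      ring
    rw [h6, h5]
    ring

theorem punct_nhds {p : ℂ → Prop} {z₀ : ℂ} (h : ∀ᶠ w in 𝓝[≠] z₀, p w) : ∀ᶠ w in 𝓝[≠] z₀, ∀ᶠ v in 𝓝 w, p v := by
  filter_upwards [eventually_eventually_nhdsWithin.2 h, self_mem_nhdsWithin] with w h1 h2
  rwa [isOpen_compl_singleton.nhdsWithin_eq h2] at h1

/-- `J` extends `j ∘ g` -/
theorem exists_ext {P : Ideal (MvPolynomial (Fin (N + 1)) ℂ)} {s : ℕ} {G : Fin s → MvPolynomial (Fin (N + 1)) ℂ} {V : Set (PN M)} {e : PN M → ℂ}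
    {j : PN N → PN M} (hj : IsRegularInto P G V e j) {l : Filter ℕ} {F : ℕ → ℂ → PN N} {g : ℂ → PN N} (hl : IsLimitPN (locVar P G) l F g) :
    ∃ J : ℂ → PN M, HolomorphicInto J Set.univ ∧ ∀ z, ∀ᶠ w in 𝓝[≠] z, ConvPN l F g w ∧ g w ∈ locVar P G ∧ J w = j (g w) := by
  obtain ⟨D, γ, hγ, hγ0, hγj⟩ := hj.regular (g 0).rep (g 0).rep_nonzero (by rw [Projectivization.mk_rep]; exact hl.zero_mem)
  obtain ⟨i₀, hi₀⟩ : ∃ i₀, ¬ VanishesAt (γ i₀) (g 0) := by
    by_contra hcon
    push Not at hcon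
    exact hγ0 (funext fun i => hcon i)
  obtain ⟨J, hJ, hJ1, hJ2⟩ := exists_comp hγ isOpen_univ isPreconnected_univ hl.hol (Set.mem_univ 0) hi₀
  refine ⟨J, hJ, fun z => ?_⟩
  filter_upwards [hJ2 z (Set.mem_univ z), hl.conv z] with w h1 h2
  have h3 : g w ∈ locVar P G := hl.mem_of_conv w h2
  refine ⟨h2, h3, ?_⟩
  have h4 := hγj (g w).rep (g w).rep_nonzero h1.1 (by rw [Projectivization.mk_rep]; exact h3)
  rw [Projectivization.mk_rep] at h4
  obtain ⟨h1, h5⟩ := h1
  rw [h5, h4]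
  exact dif_pos h1

/-- A limit curve in a fibre over a value not in `B₀` is constant. -/
theorem const_of {P : Ideal (MvPolynomial (Fin (N + 1)) ℂ)} {s : ℕ} {G : Fin s → MvPolynomial (Fin (N + 1)) ℂ} {V : Set (PN M)} {e : PN M → ℂ}
    {j : PN N → PN M} (hj : IsRegularInto P G V e j) {B₀ : Set ℂ} (hB₀ : Const V e B₀) {l : Filter ℕ} {F : ℕ → ℂ → PN N} {g : ℂ → PN N}
    (hl : IsLimitPN (locVar P G) l F g) {c : ℂ} (hc : c ∉ B₀) (h : ∀ z, ConvPN l F g z → e (j (g z)) = c) : ∀ z w, g z = g w := by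
  obtain ⟨J, hJ, hJg⟩ := exists_ext hj hl
  have h1 : ∀ z w, J z = J w := by
    refine hB₀ l (fun n z => j (F n z)) J c hl.neBot hl.le_atTop hJ (fun n => ⟨holInto_j hj isOpen_ball (hl.holF n) (hl.memF n),
      fun z hz => hj.maps _ (hl.memF n z hz)⟩) hc fun z₀ => ?_
    have h3 : ∀ᶠ w in 𝓝[≠] z₀, ∀ᶠ v in 𝓝 w, J v = j (g v) := punct_nhds ((hJg z₀).mono fun w hw => hw.2.2)
    filter_upwards [hJg z₀, h3] with w h4 h5
    obtain ⟨h6, h7, h8⟩ := h4
    refine ⟨convPN_congr (conv_j hj hl h6) (h5.mono fun v hv => hv.symm), h8 ▸ hj.maps _ h7, ?_⟩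
    rw [h8]
    exact h w h6
  -- `g` is locally constant somewhere
  obtain ⟨z₁, hz₁⟩ := (punct_nhds (hJg 0)).exists
  have h2 : ∀ᶠ w in 𝓝 z₁, g w = (fun _ => g z₁) w := by
    obtain ⟨-, h3, h4⟩ := hz₁.self_of_nhds
    filter_upwards [hz₁] with w hw
    obtain ⟨-, h5, h6⟩ := hw
    exact hj.inj _ h5 _ h3 (by rw [← h6, ← h4, h1 w z₁])
  have h3 : HolomorphicInto (fun _ : ℂ => g z₁) Set.univ := fun z _ =>
    ⟨fun _ => (g z₁).rep, analyticAt_const, Eventually.of_forall fun w => ⟨(g z₁).rep_nonzero, (Projectivization.mk_rep _).symm⟩⟩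
  have h4 := pn_identity isPreconnected_univ hl.hol h3 (Set.mem_univ z₁) h2
  intro z w
  rw [h4 z (Set.mem_univ z), h4 w (Set.mem_univ w)]

/-- **All limit curves of order two are caught.** -/
theorem caught_of_out {P : Ideal (MvPolynomial (Fin (N + 1)) ℂ)} {s : ℕ} {G : Fin s → MvPolynomial (Fin (N + 1)) ℂ}
    {V : Set (PN M)} {e : PN M → ℂ} {j : PN N → PN M} (hj : IsRegularInto P G V e j) {B₀ : Set ℂ} (hB₀ : Const V e B₀) {q : ℕ} {B : Set ℂ} {ι : Type}
    {f : ι → ℂ → PN M} (O : Out V e q B f) :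
    ∃ p : ι → Fin (M + 1) → Polynomial ℂ, ∀ (Bf : MvPolynomial (Fin (N + 1)) ℂ) (l : Filter ℕ) (F : ℕ → ℂ → PN N) (g : ℂ → PN N),
      IsLimitPN (locVar P G) l F g → (∃ z w, g z ≠ g w) → ((∃ z, ¬ VanishesAt Bf (g z)) → ∃ a b c : ℂ, Lim V e j l F g a b c) →
        Caught P G e j Bf B₀ p g := by
  classical
  have hp : ∀ i, ∃ p : Fin (M + 1) → Polynomial ℂ, (∃ p : Fin (M + 1) → Polynomial ℂ, ∀ z, z ∉ B →
      ∃ h : (fun a => (p a).eval (Complex.exp (z / q))) ≠ 0, f i z = Projectivization.mk ℂ _ h) →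
      ∀ z, z ∉ B → ∃ h : (fun a => (p a).eval (Complex.exp (z / q))) ≠ 0, f i z = Projectivization.mk ℂ _ h := by
    intro i
    by_cases h : ∃ p : Fin (M + 1) → Polynomial ℂ, ∀ z, z ∉ B →
      ∃ h : (fun a => (p a).eval (Complex.exp (z / q))) ≠ 0, f i z = Projectivization.mk ℂ _ h
    · obtain ⟨p, hp⟩ := h
      exact ⟨p, fun _ => hp⟩
    · exact ⟨0, fun h' => absurd h' h⟩
  choose p hp using hp
  refine ⟨p, fun Bf l F g hl hne hlim => ?_⟩
  by_cases hv : ∀ z, VanishesAt Bf (g z)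
  · refine ⟨0, Eventually.frequently ?_⟩
    filter_upwards [hl.conv 0] with w hw
    exact ⟨hl.mem_of_conv w hw, Or.inr (Or.inl (hv w))⟩
  · push Not at hv
    obtain ⟨a, b, c, hφ, hsec⟩ := hlim hv
    by_cases hab : a = 0 ∧ b = 0
    · -- the constant case
      obtain ⟨rfl, rfl⟩ := hab
      have h1 : ∀ z, ConvPN l F g z → e (j (g z)) = Complex.exp c := by
        intro z hz
        have := hφ z hz
        simpa using this
      by_cases hc : Complex.exp c ∈ B₀
      · refine ⟨0, Eventually.frequently ?_⟩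
        filter_upwards [hl.conv 0] with w hw
        exact ⟨hl.mem_of_conv w hw, Or.inl (by rw [h1 w hw]; exact hc)⟩
      · exfalso
        obtain ⟨z, w, hzw⟩ := hne
        exact hzw (const_of hj hB₀ hl hc h1 z w)
    · have hab' : a ≠ 0 ∨ b ≠ 0 := by
        by_contra hcon
        push Not at hcon
        exact hab hcon
      -- a branch of the inverse
      obtain ⟨Ω, ψ, hΩo, hΩc, w₀, hw₀, hψ, hφψ, i, hi⟩ : ∃ (Ω : Set ℂ) (ψ : ℂ → ℂ), IsOpen Ω ∧ Convex ℝ Ω ∧ ∃ w₀ ∈ Ω, DifferentiableOn ℂ ψ Ω ∧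
          (∀ z ∈ Ω, a * ψ z ^ 2 + b * ψ z + c = z) ∧ ∃ i, ∀ z ∈ Ω, z ∉ B → ConvPN l F g (ψ z) → j (g (ψ z)) = f i z := by
        by_cases ha : a = 0
        · subst ha
          have hb : b ≠ 0 := by simpa using hab'
          have h1 : ∀ z ∈ (Set.univ : Set ℂ), (0 : ℂ) * ((z - c) / b) ^ 2 + b * ((z - c) / b) + c = z := by
            intro z _
            field_simp
            ring
          have h2 : DifferentiableOn ℂ (fun z : ℂ => (z - c) / b) Set.univ := by fun_prop
          obtain ⟨i, hi⟩ := O.full _ _ (hsec Set.univ (fun z => (z - c) / b) isOpen_univ convex_univ h2 h1)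
          exact ⟨Set.univ, fun z => (z - c) / b, isOpen_univ, convex_univ, 0, Set.mem_univ _, h2, h1, i,
            fun z _ hz hz' => hi z hz fun h3 => h3 hz'⟩
        · obtain ⟨ρ, ψ, hψ, hφψ⟩ := exists_branch (b := b) (c := c) ha
          have hΩo : IsOpen (HPl 1 ρ) := isOpen_lt continuous_const (by fun_prop)
          have hΩc : Convex ℝ (HPl 1 ρ) := by
            have h1 : HPl 1 ρ = {z : ℂ | ρ < z.im} := by
              ext z
              simp [HPl]
            rw [h1]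
            exact convex_halfSpace_im_gt ρ
          obtain ⟨i, hi⟩ := O.half 1 ρ (Or.inl rfl) _ _ (hsec _ ψ hΩo hΩc hψ hφψ)
          refine ⟨HPl 1 ρ, ψ, hΩo, hΩc, ⟨0, ρ + 1⟩, ?_, hψ, hφψ, i, fun z hz hz' hz'' => hi z hz hz' fun h3 => h3 hz''⟩
          show ρ < 1 * (ρ + 1)
          linarith
      obtain ⟨J, hJ, hJg⟩ := exists_ext hj hl
      have hψd : ∀ z ∈ Ω, HasStrictDerivAt ψ (deriv ψ z) z ∧ deriv ψ z ≠ 0 := by
        intro z hz
        have h1 : AnalyticAt ℂ ψ z := hψ.analyticAt (hΩo.mem_nhds hz)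
        refine ⟨h1.hasStrictDerivAt, fun h2 => ?_⟩
        have h3 : HasDerivAt (fun z => a * ψ z ^ 2 + b * ψ z + c) (a * (2 * ψ z * deriv ψ z) + b * deriv ψ z) z := by
          have h4 := h1.differentiableAt.hasDerivAt
          have h5 := (((h4.pow 2).const_mul a).add (h4.const_mul b)).add_const c
          simpa using h5
        have h4 : (fun z => a * ψ z ^ 2 + b * ψ z + c) =ᶠ[𝓝 z] fun z => z := by
          filter_upwards [hΩo.mem_nhds hz] with w hw
          exact hφψ w hw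
        have h5 := h3.deriv
        rw [h4.deriv_eq, h2] at h5
        simp at h5
      -- a good point near `w₀`
      have htend : Tendsto ψ (𝓝[≠] w₀) (𝓝[≠] (ψ w₀)) := by
        rw [tendsto_nhdsWithin_iff]
        exact ⟨(hψd w₀ hw₀).1.hasDerivAt.continuousAt.tendsto.mono_left nhdsWithin_le_nhds,
          (hψd w₀ hw₀).1.hasDerivAt.eventually_ne (hψd w₀ hw₀).2⟩
      have hev : ∀ᶠ z in 𝓝[≠] w₀, z ∈ Ω ∧ z ∉ B ∧ g (ψ z) ∈ locVar P G ∧ J (ψ z) = f i z ∧ j (g (ψ z)) = f i z := by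
        filter_upwards [nhdsWithin_le_nhds (hΩo.mem_nhds hw₀), O.discrete w₀, htend.eventually (hJg (ψ w₀))] with z h1 h2 h3
        obtain ⟨h4, h5, h6⟩ := h3
        have h7 := hi z h1 h2 h4
        exact ⟨h1, h2, h5, h6.trans h7, h7⟩
      obtain ⟨z₀, hz₀⟩ := (punct_nhds hev).exists
      obtain ⟨hz₀Ω, hz₀B, -, -, -⟩ := hz₀.self_of_nhds
      have hmap : map ψ (𝓝 z₀) = 𝓝 (ψ z₀) := (hψd z₀ hz₀Ω).1.map_nhds_eq (hψd z₀ hz₀Ω).2
      have hz₁ : a * ψ z₀ ^ 2 + b * ψ z₀ + c = z₀ := hφψ z₀ hz₀Ω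
      have hev1 : ∀ᶠ z in 𝓝 (ψ z₀), a * z ^ 2 + b * z + c ∉ B ∧ g z ∈ locVar P G ∧ J z = f i (a * z ^ 2 + b * z + c) ∧
          j (g z) = f i (a * z ^ 2 + b * z + c) := by
        rw [← hmap, eventually_map]
        filter_upwards [hz₀] with z h1
        obtain ⟨h2, h3, h4, h5, h6⟩ := h1
        rw [hφψ z h2]
        exact ⟨h3, h4, h5, h6⟩
      have h8 := hp i (poly_of_out O hab' hJ (i := i) (by rw [hz₁]; exact hz₀B) (hev1.mono fun z hz => hz.2.2.1))
      refine ⟨ψ z₀, Eventually.frequently ?_⟩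
      filter_upwards [nhdsWithin_le_nhds hev1] with z hz
      obtain ⟨h9, h10, -, h12⟩ := hz
      obtain ⟨h13, h14⟩ := h8 _ h9
      exact ⟨h10, Or.inr (Or.inr ⟨i, _, h13, by rw [h12, h14]⟩)⟩

end Pool.Agent.H4.LU
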