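import Mathlib

/-!
# LU Rel: algebraic relations

* `exists_relation`: three polynomials in one variable satisfy a homogeneous relation.
-/

set_option autoImplicit false

open Polynomial

noncomputable section

namespace Pool.Agent.H4.LU

/-- Three polynomials in one variable satisfy a homogeneous relation. -/
theorem exists_relation (p₀ p₁ p₂ : ℂ[X]) : ∃ (n : ℕ) (c : Fin n × Fin n → ℂ), c ≠ 0 ∧ 1 ≤ n ∧
    ∑ x : Fin n × Fin n, C (c x) * (p₀ ^ (2 * n - x.1.1 - x.2.1) * p₁ ^ x.1.1 * p₂ ^ x.2.1) = 0 := by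
  classical
  set D : ℕ := max p₀.natDegree (max p₁.natDegree p₂.natDegree) with hD
  set n : ℕ := 2 * D + 2 with hn
  let mon : Fin n × Fin n → ℂ[X] := fun x => p₀ ^ (2 * n - x.1.1 - x.2.1) * p₁ ^ x.1.1 * p₂ ^ x.2.1
  have hmon : ∀ x, (mon x).natDegree ≤ 2 * n * D := by
    intro x
    have h0 : p₀.natDegree ≤ D := le_max_left _ _
    have h1 : p₁.natDegree ≤ D := (le_max_left _ _).trans (le_max_right _ _)
    have h2 : p₂.natDegree ≤ D := (le_max_right _ _).trans (le_max_right _ _)
    have hx1 := x.1.2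
    have hx2 := x.2.2
    calc (mon x).natDegree ≤ (p₀ ^ (2 * n - x.1.1 - x.2.1) * p₁ ^ x.1.1).natDegree + (p₂ ^ x.2.1).natDegree := natDegree_mul_le
      _ ≤ ((p₀ ^ (2 * n - x.1.1 - x.2.1)).natDegree + (p₁ ^ x.1.1).natDegree) + (p₂ ^ x.2.1).natDegree := by
          gcongr
          exact natDegree_mul_le
      _ ≤ ((2 * n - x.1.1 - x.2.1) * D + x.1.1 * D) + x.2.1 * D := by
          gcongr
          · exact natDegree_pow_le.trans (Nat.mul_le_mul_left _ h0)
          · exact natDegree_pow_le.trans (Nat.mul_le_mul_left _ h1)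
          · exact natDegree_pow_le.trans (Nat.mul_le_mul_left _ h2)
      _ = 2 * n * D := by
          rw [← Nat.add_mul, ← Nat.add_mul]
          congr 1
          omega
  let L : (Fin n × Fin n → ℂ) →ₗ[ℂ] (Fin (2 * n * D + 1) → ℂ) :=
    { toFun := fun c m => (∑ x, C (c x) * mon x).coeff m
      map_add' := by
        intro c c'
        funext m
        simp only [Pi.add_apply, C_add, add_mul, Finset.sum_add_distrib, coeff_add]
      map_smul' := by
        intro a c
        funext m
        simp only [Pi.smul_apply, smul_eq_mul, C_mul, RingHom.id_apply, mul_assoc, ← Finset.mul_sum, coeff_C_mul] }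
  have hker : LinearMap.ker L ≠ ⊥ := by
    apply LinearMap.ker_ne_bot_of_finrank_lt
    rw [Module.finrank_fintype_fun_eq_card, Module.finrank_fintype_fun_eq_card, Fintype.card_prod, Fintype.card_fin, Fintype.card_fin, hn]
    nlinarith
  obtain ⟨c, hc, hc0⟩ := Submodule.exists_mem_ne_zero_of_ne_bot hker
  refine ⟨n, c, hc0, by omega, ?_⟩
  have h1 : ∀ m : Fin (2 * n * D + 1), (∑ x, C (c x) * mon x).coeff m = 0 := fun m => congrFun (LinearMap.mem_ker.1 hc) m
  ext m
  rw [coeff_zero]
  by_cases hm : m < 2 * n * D + 1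
  · exact h1 ⟨m, hm⟩
  · apply coeff_eq_zero_of_natDegree_lt
    refine lt_of_le_of_lt (natDegree_sum_le_of_forall_le _ _ fun x _ => (natDegree_C_mul_le _ _).trans (hmon x)) ?_
    omega

end Pool.Agent.H4.LU
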