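import Pool.Agent.H4.LU.Defs
import Pool.Agent.H4.LU.Rel
import Pool.Agent.H36.BPL.Pair
import Pool.Agent.H13.SM.Surf

/-!
# LU Alg: the inverse image of a rational curve under an injective regular map is contained in a curve

* `exists_form_of_rational`.
-/

set_option autoImplicit false

open Topology Filter MvPolynomial Metric

noncomputable section

namespace Pool.Agent.H4.LU

open Pool.Agent.H17 (PN VanishesAt HolomorphicInto vanishesAt_mk_iff)
open Pool.Agent.H62.FC (Homog)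
open Pool.Agent.H17LG.Variety (FunField)
open Pool.Agent.H17BP (Surface IsChart)
open Pool.Agent.H13.SM (conTan cone)
open Pool.Agent.H62.SA (locVar)
open Pool.Agent.H7.Bir (vals vals_smul)

variable {M N : ℕ}

/-- A zero of an analytic function of two variables is not isolated: the zeros near it are an infinite set. -/
theorem infinite_zeros {g : ℂ × ℂ → ℂ} {p : ℂ × ℂ} (hg : AnalyticAt ℂ g p) (h0 : g p = 0) {W : Set (ℂ × ℂ)} (hW : W ∈ 𝓝 p) :
    {q | q ∈ W ∧ g q = 0}.Infinite := by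
  intro hfin
  have hg' : AnalyticAt ℂ (fun q : ℂ × ℂ => g (p + q)) 0 := by
    have h1 : AnalyticAt ℂ (fun q : ℂ × ℂ => p + q) 0 := analyticAt_const.add analyticAt_id
    exact AnalyticAt.comp (g := g) (f := fun q : ℂ × ℂ => p + q) (by simpa using hg) h1
  have h1 := Pool.Agent.H36.BPL.freq_zero hg' (by simpa using h0)
  have h2 : IsClosed ({q | q ∈ W ∧ g q = 0} \ {p}) := (hfin.subset Set.diff_subset).isClosed
  have h3 : ∀ᶠ q in 𝓝 p, q ∉ {q | q ∈ W ∧ g q = 0} \ {p} := h2.isOpen_compl.mem_nhds (by simp)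
  have h4 : Tendsto (fun q : ℂ × ℂ => p + q) (𝓝 0) (𝓝 p) := by
    have : Continuous (fun q : ℂ × ℂ => p + q) := by fun_prop
    simpa using this.tendsto 0
  have h5 : ∀ᶠ q in 𝓝[≠] (0 : ℂ × ℂ), g (p + q) ≠ 0 := by
    rw [eventually_nhdsWithin_iff]
    filter_upwards [h4.eventually h3, h4.eventually hW] with q hq hqW hq0 hgq
    exact hq ⟨⟨hqW, hgq⟩, by simpa using hq0⟩
  exact h1 h5

/-- Points of a chart which are equal in the projective space are equal. -/
theorem chart_inj {X : Set (Fin (N + 1) → ℂ)} {σ : ℂ × ℂ → Fin (N + 1) → ℂ} {τ : (Fin (N + 1) → ℂ) → ℂ × ℂ} (h : IsChart X σ τ) :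
    ∀ᶠ q in 𝓝 ((0 : ℂ × ℂ), (0 : ℂ × ℂ)), ∀ c : ℂ, σ q.1 = c • σ q.2 → q.1 = q.2 := by
  obtain ⟨l, hl⟩ : ∃ l, σ 0 l ≠ 0 := by
    by_contra hcon
    push Not at hcon
    exact h.ne (funext hcon)
  have hf1 : Tendsto (fun q : (ℂ × ℂ) × (ℂ × ℂ) => q.1) (𝓝 (0, 0)) (𝓝 0) := continuous_fst.tendsto _
  have hf2 : Tendsto (fun q : (ℂ × ℂ) × (ℂ × ℂ) => q.2) (𝓝 (0, 0)) (𝓝 0) := continuous_snd.tendsto _
  have hσ : Tendsto σ (𝓝 0) (𝓝 (σ 0)) := h.σ_an.continuousAt
  have hσl : Tendsto (fun p => σ p l) (𝓝 0) (𝓝 (σ 0 l)) := ((continuous_apply l).tendsto _).comp hσ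
  have hq : Tendsto (fun q : (ℂ × ℂ) × (ℂ × ℂ) => σ q.1 l / σ q.2 l) (𝓝 (0, 0)) (𝓝 1) := by
    have := (hσl.comp hf1).div (hσl.comp hf2) hl
    rwa [div_self hl] at this
  have hpair : Tendsto (fun q : (ℂ × ℂ) × (ℂ × ℂ) => (σ q.2, σ q.1 l / σ q.2 l)) (𝓝 (0, 0)) (𝓝 (σ 0, 1)) :=
    (hσ.comp hf2).prodMk_nhds hq
  filter_upwards [hpair.eventually h.inv, hf1.eventually h.left, hf2.eventually h.left, hf2.eventually (hσl.eventually_ne hl)] with q h1 h2 h3 h4 c hc
  have h5 : σ q.1 l / σ q.2 l = c := by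
    rw [hc, Pi.smul_apply, smul_eq_mul, mul_div_assoc, div_self h4, mul_one]
  simp only [h5] at h1
  rw [← h2, ← h3, hc, h1]

theorem analyticAt_form {E : Type} [NormedAddCommGroup E] [NormedSpace ℂ E] (Q : MvPolynomial (Fin (N + 1)) ℂ) {σ : E → Fin (N + 1) → ℂ} {q : E}
    (hσ : AnalyticAt ℂ σ q) : AnalyticAt ℂ (fun q => eval (σ q) Q) q := by
  have h : ∀ i : Fin (N + 1), AnalyticAt ℂ (fun q => σ q i) q := fun i => analyticAt_pi_iff.1 hσ i
  have := AnalyticAt.aeval_mvPolynomial (𝕜 := ℂ) h Q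
  simpa [MvPolynomial.aeval_eq_eval] using this

theorem eval_aeval_vals (γ : Fin (M + 1) → MvPolynomial (Fin (N + 1)) ℂ) (x : Fin (N + 1) → ℂ) (Q : MvPolynomial (Fin (M + 1)) ℂ) :
    eval x (aeval γ Q) = eval (vals γ x) Q := by
  induction Q using MvPolynomial.induction_on with
  | C a => simp [algebraMap_eq]
  | add a b ha hb => simp only [map_add, ha, hb]
  | mul_X a i ha => simp only [map_mul, ha, aeval_X, eval_X]; rfl

/-- **The inverse image of a rational curve**: if `j` is an injective regular map from a smooth surface `U` to `ℙ^M`, then the points of `U` which are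
mapped to the curve `w ↦ [p 0 (w), …, p M (w)]` are zeros of a form which is not `0` on `U`. -/
theorem exists_form_of_rational {P : Ideal (MvPolynomial (Fin (N + 1)) ℂ)} [P.IsPrime] (hP : Homog P) {z : Fin 2 → FunField P}
    (hz : IsTranscendenceBasis ℂ z) (hsm : ∀ y ∈ cone P, Module.finrank ℂ (conTan P y) ≤ 3) {s : ℕ} {G : Fin s → MvPolynomial (Fin (N + 1)) ℂ}
    (hG : ∀ m, ∃ n, (G m).IsHomogeneous n) (hne : (locVar P G).Nonempty) {j : PN N → PN M}
    (hinj : ∀ x ∈ locVar P G, ∀ x' ∈ locVar P G, j x = j x' → x = x')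
    (hreg : ∀ (x : Fin (N + 1) → ℂ) (hx : x ≠ 0), Projectivization.mk ℂ x hx ∈ locVar P G →
      ∃ (D : ℕ) (γ : Fin (M + 1) → MvPolynomial (Fin (N + 1)) ℂ), (∀ i, (γ i).IsHomogeneous D) ∧ vals γ x ≠ 0 ∧
        ∀ (x' : Fin (N + 1) → ℂ) (hx' : x' ≠ 0) (h : vals γ x' ≠ 0), Projectivization.mk ℂ x' hx' ∈ locVar P G →
          j (Projectivization.mk ℂ x' hx') = Projectivization.mk ℂ (vals γ x') h)
    (p : Fin (M + 1) → Polynomial ℂ) :
    ∃ (D : ℕ) (R : MvPolynomial (Fin (N + 1)) ℂ), R.IsHomogeneous D ∧ R ∉ P ∧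
      ∀ x ∈ locVar P G, (∃ (w : ℂ) (h : (fun i => (p i).eval w) ≠ 0), j x = Projectivization.mk ℂ _ h) → VanishesAt R x := by
  classical
  obtain ⟨x₀, hx₀⟩ := hne
  have hx₀r : Projectivization.mk ℂ x₀.rep x₀.rep_nonzero ∈ locVar P G := by rwa [Projectivization.mk_rep]
  obtain ⟨D, γ, hγ, hγ0, hγj⟩ := hreg x₀.rep x₀.rep_nonzero hx₀r
  by_contra hcon
  push Not at hcon
  -- all relations between the `p i` are relations between the `γ i`
  have hrel : ∀ (n : ℕ) (Q : MvPolynomial (Fin (M + 1)) ℂ), 1 ≤ n → Q.IsHomogeneous n → (∀ w : ℂ, eval (fun i => (p i).eval w) Q = 0) →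
      aeval γ Q ∈ P := by
    intro n Q hn hQ hQp
    by_contra hQP
    obtain ⟨x, hx, ⟨w, hw, hjx⟩, hRx⟩ := hcon (D * n) (aeval γ Q) (hQ.aeval _ hγ) hQP
    apply hRx
    unfold VanishesAt
    have e1 : eval x.rep (aeval γ Q) = eval (vals γ x.rep) Q := eval_aeval_vals γ x.rep Q
    rw [e1]
    by_cases h0 : vals γ x.rep = 0
    · rw [h0]
      have := Pool.Agent.H17BP.eval_smul_form hQ 0 (0 : Fin (M + 1) → ℂ)
      rw [smul_zero] at this
      rw [this, zero_pow (by omega), zero_mul]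
    · have h1 := hγj x.rep x.rep_nonzero h0 (by rwa [Projectivization.mk_rep])
      rw [Projectivization.mk_rep, hjx, Projectivization.mk_eq_mk_iff'] at h1
      obtain ⟨a, ha⟩ := h1
      have ha0 : a ≠ 0 := by
        rintro rfl
        rw [zero_smul] at ha
        exact hw ha.symm
      have h2 : vals γ x.rep = a⁻¹ • (fun i => (p i).eval w) := by
        rw [← ha, smul_smul, inv_mul_cancel₀ ha0, one_smul]
      rw [h2, Pool.Agent.H17BP.eval_smul_form hQ, hQp, mul_zero]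
  -- the chart
  have hS : Surface (cone P) := Pool.Agent.H13.SM.surface_cone hP hz hsm
  have hx₀c : x₀.rep ∈ cone P := (Pool.Agent.H17BP.rep_mem_cone hP).2 ⟨hx₀.1, fun m => m.elim0⟩
  obtain ⟨σ, τ, hc, hσ0⟩ := hS.chart _ hx₀c
  obtain ⟨m₀, hm₀⟩ := hx₀.2
  obtain ⟨n₀, hn₀⟩ := hG m₀
  have hGσ : AnalyticAt ℂ (fun q => eval (σ q) (G m₀)) 0 := analyticAt_form (G m₀) hc.σ_an
  have hγσ : ∀ a, AnalyticAt ℂ (fun q => eval (σ q) (γ a)) 0 := fun a => analyticAt_form (γ a) hc.σ_an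
  have hG0 : eval (σ 0) (G m₀) ≠ 0 := by
    rw [hσ0]
    exact hm₀
  obtain ⟨a₀, ha₀⟩ : ∃ a, eval (σ 0) (γ a) ≠ 0 := by
    by_contra hcon'
    push Not at hcon'
    apply hγ0
    funext a
    have := hcon' a
    rw [hσ0] at this
    exact this
  -- points near the centre
  have hgood : ∀ᶠ q in 𝓝 (0 : ℂ × ℂ), σ q ∈ cone P ∧ eval (σ q) (G m₀) ≠ 0 ∧ eval (σ q) (γ a₀) ≠ 0 :=
    hc.σ_mem.and ((hGσ.continuousAt.eventually_ne hG0).and ((hγσ a₀).continuousAt.eventually_ne ha₀))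
  have hloc : ∀ q, σ q ∈ cone P → eval (σ q) (G m₀) ≠ 0 → ∃ h : σ q ≠ 0, Projectivization.mk ℂ (σ q) h ∈ locVar P G := by
    intro q h1 h2
    refine ⟨h1.1, fun Q hQ n hn => ?_, m₀, ?_⟩
    · rw [vanishesAt_mk_iff hn _ h1.1]
      exact h1.2 Q hQ
    · rw [vanishesAt_mk_iff hn₀ _ h1.1]
      exact h2
  set g : ℂ × ℂ → Fin (M + 1) → ℂ := fun q a => eval (σ q) (γ a) / eval (σ q) (γ a₀) with hg
  have hga : ∀ᶠ q in 𝓝 (0 : ℂ × ℂ), ∀ a, AnalyticAt ℂ (fun q => g q a) q := by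
    have h1 : ∀ a, ∀ᶠ q in 𝓝 (0 : ℂ × ℂ), AnalyticAt ℂ (fun q => g q a) q := fun a =>
      ((hγσ a).div (hγσ a₀) ha₀).eventually_analyticAt
    exact eventually_all.2 h1
  -- `j` is injective
  have hinj' : ∀ᶠ q in 𝓝 ((0 : ℂ × ℂ), (0 : ℂ × ℂ)), g q.1 = g q.2 → q.1 = q.2 := by
    have hf1 : Tendsto (fun q : (ℂ × ℂ) × (ℂ × ℂ) => q.1) (𝓝 (0, 0)) (𝓝 0) := continuous_fst.tendsto _
    have hf2 : Tendsto (fun q : (ℂ × ℂ) × (ℂ × ℂ) => q.2) (𝓝 (0, 0)) (𝓝 0) := continuous_snd.tendsto _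
    filter_upwards [chart_inj hc, hf1.eventually hgood, hf2.eventually hgood] with q h1 h2 h3 h4
    obtain ⟨h5, h6⟩ := hloc q.1 h2.1 h2.2.1
    obtain ⟨h7, h8⟩ := hloc q.2 h3.1 h3.2.1
    have hv : vals γ (σ q.1) = (eval (σ q.1) (γ a₀) / eval (σ q.2) (γ a₀)) • vals γ (σ q.2) := by
      funext a
      have h9 := congrFun h4 a
      simp only [hg] at h9
      rw [div_eq_div_iff h2.2.2 h3.2.2] at h9
      show eval (σ q.1) (γ a) = eval (σ q.1) (γ a₀) / eval (σ q.2) (γ a₀) * eval (σ q.2) (γ a)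
      rw [div_mul_eq_mul_div, eq_div_iff h3.2.2, h9]
      ring
    have hv1 : vals γ (σ q.1) ≠ 0 := fun h => h2.2.2 (congrFun h a₀)
    have hv2 : vals γ (σ q.2) ≠ 0 := fun h => h3.2.2 (congrFun h a₀)
    have h10 := hγj _ h5 hv1 h6
    have h11 := hγj _ h7 hv2 h8
    have h12 : j (Projectivization.mk ℂ (σ q.1) h5) = j (Projectivization.mk ℂ (σ q.2) h7) := by
      rw [h10, h11, Projectivization.mk_eq_mk_iff']
      exact ⟨_, hv.symm⟩
    have h13 := hinj _ h6 _ h8 h12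
    rw [Projectivization.mk_eq_mk_iff'] at h13
    obtain ⟨c, hc'⟩ := h13
    exact h1 c hc'.symm
  obtain ⟨r, hr, hball⟩ : ∃ r > 0, (∀ q ∈ ball (0 : ℂ × ℂ) r, (σ q ∈ cone P ∧ eval (σ q) (G m₀) ≠ 0 ∧ eval (σ q) (γ a₀) ≠ 0) ∧
      ∀ a, AnalyticAt ℂ (fun q => g q a) q) ∧ ∀ q ∈ ball (0 : ℂ × ℂ) r, ∀ q' ∈ ball (0 : ℂ × ℂ) r, g q = g q' → q = q' := by
    obtain ⟨r₁, hr₁, h1⟩ := Metric.eventually_nhds_iff_ball.1 (hgood.and hga)
    obtain ⟨r₂, hr₂, h2⟩ := Metric.eventually_nhds_iff_ball.1 hinj'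
    refine ⟨min r₁ r₂, lt_min hr₁ hr₂, fun q hq => h1 q (ball_subset_ball (min_le_left _ _) hq), fun q hq q' hq' h3 => h2 (q, q') ?_ h3⟩
    have e1 := ball_subset_ball (min_le_right r₁ r₂) hq
    have e2 := ball_subset_ball (min_le_right r₁ r₂) hq'
    rw [mem_ball, Prod.dist_eq]
    exact max_lt e1 e2
  obtain ⟨hb1, hb2⟩ := hball
  -- the relations
  have hR : ∀ a b : Fin (M + 1), ∃ (n : ℕ) (c : Fin n × Fin n → ℂ), c ≠ 0 ∧ ∀ q ∈ ball (0 : ℂ × ℂ) r,
      ∑ x : Fin n × Fin n, c x * g q a ^ (x.1 : ℕ) * g q b ^ (x.2 : ℕ) = 0 := by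
    intro a b
    obtain ⟨n, c, hc0, hn, hrel'⟩ := exists_relation (p a₀) (p a) (p b)
    refine ⟨n, c, hc0, fun q hq => ?_⟩
    let Q : MvPolynomial (Fin (M + 1)) ℂ := ∑ x : Fin n × Fin n, C (c x) * (X a₀ ^ (2 * n - x.1.1 - x.2.1) * X a ^ x.1.1 * X b ^ x.2.1)
    have hQ : Q.IsHomogeneous (2 * n) := by
      refine IsHomogeneous.sum _ _ _ fun x _ => ?_
      have hx1 := x.1.2
      have hx2 := x.2.2
      have h1 : (X a₀ ^ (2 * n - x.1.1 - x.2.1) * X a ^ x.1.1 * X b ^ x.2.1 : MvPolynomial (Fin (M + 1)) ℂ).IsHomogeneous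
          ((2 * n - x.1.1 - x.2.1) + x.1.1 + x.2.1) :=
        ((isHomogeneous_X_pow a₀ _).mul (isHomogeneous_X_pow a _)).mul (isHomogeneous_X_pow b _)
      have h2 : (2 * n - x.1.1 - x.2.1) + x.1.1 + x.2.1 = 2 * n := by omega
      rw [h2] at h1
      have h3 := (isHomogeneous_C (Fin (M + 1)) (c x)).mul h1
      rwa [zero_add] at h3
    have hQp : ∀ w : ℂ, eval (fun i => (p i).eval w) Q = 0 := by
      intro w
      have h1 := congrArg (Polynomial.eval w) hrel'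
      rw [Polynomial.eval_finset_sum, Polynomial.eval_zero] at h1
      simp only [Polynomial.eval_mul, Polynomial.eval_C, Polynomial.eval_pow] at h1
      simp only [Q, map_sum, map_mul, map_pow, eval_X, eval_C]
      exact h1
    have h1 := (hb1 q hq).1.1.2 _ (hrel _ Q (by omega) hQ hQp)
    rw [eval_aeval_vals] at h1
    have h0 := (hb1 q hq).1.2.2
    simp only [Q, map_sum, map_mul, map_pow, eval_X, eval_C] at h1
    have h2 : ∑ x : Fin n × Fin n, c x * g q a ^ (x.1 : ℕ) * g q b ^ (x.2 : ℕ) =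
        (∑ x : Fin n × Fin n, c x * (vals γ (σ q) a₀ ^ (2 * n - x.1.1 - x.2.1) * vals γ (σ q) a ^ x.1.1 * vals γ (σ q) b ^ x.2.1)) /
          eval (σ q) (γ a₀) ^ (2 * n) := by
      rw [Finset.sum_div]
      refine Finset.sum_congr rfl fun x _ => ?_
      have hx1 := x.1.2
      have hx2 := x.2.2
      have e1 : eval (σ q) (γ a₀) ^ (2 * n) = eval (σ q) (γ a₀) ^ (2 * n - x.1.1 - x.2.1) * eval (σ q) (γ a₀) ^ x.1.1 *
          eval (σ q) (γ a₀) ^ x.2.1 := by
        rw [← pow_add, ← pow_add]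
        congr 1
        omega
      rw [e1]
      simp only [hg, vals]
      rw [div_pow, div_pow]
      field_simp
    rw [h2, h1, zero_div]
  -- some function is not constant
  obtain ⟨a, ha⟩ : ∃ a, ∃ q ∈ ball (0 : ℂ × ℂ) (r / 2), g q a ≠ g 0 a := by
    by_contra hcon'
    push Not at hcon'
    have h1 : ((r / 4 : ℝ) : ℂ) ≠ 0 := by
      rw [Ne, Complex.ofReal_eq_zero]
      positivity
    have h2 : ((((r / 4 : ℝ) : ℂ), (0 : ℂ)) : ℂ × ℂ) ∈ ball (0 : ℂ × ℂ) (r / 2) := by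
      rw [mem_ball_zero_iff, Prod.norm_def, norm_zero, Complex.norm_real, Real.norm_of_nonneg (by positivity)]
      exact max_lt (by linarith) (by positivity)
    have h3 := hb2 _ (ball_subset_ball (by linarith) h2) 0 (mem_ball_self hr) (funext fun a => hcon' a _ h2)
    exact h1 (congrArg Prod.fst h3)
  choose n c hc0 hcr using hR a
  -- for almost all values of this function the others have finitely many values
  have hk : ∀ b, ∃ k : Fin (n b), (∑ i : Fin (n b), Polynomial.C (c b (i, k)) * Polynomial.X ^ (i : ℕ)) ≠ (0 : Polynomial ℂ) := by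
    intro b
    by_contra hcon'
    push Not at hcon'
    apply hc0 b
    funext x
    have h1 := congrArg (fun p : Polynomial ℂ => p.coeff x.1) (hcon' x.2)
    simp only [Polynomial.finset_sum_coeff, Polynomial.coeff_C_mul, Polynomial.coeff_X_pow, Polynomial.coeff_zero] at h1
    rw [Finset.sum_eq_single x.1] at h1
    · simpa using h1
    · intro i _ hi
      rw [if_neg, mul_zero]
      exact fun h => hi (Fin.ext h.symm)
    · exact fun h => absurd (Finset.mem_univ _) h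
  choose k hk using hk
  let bad : Set ℂ := ⋃ b, {s | (∑ i : Fin (n b), Polynomial.C (c b (i, k b)) * Polynomial.X ^ (i : ℕ)).IsRoot s}
  have hbad : bad.Finite := Set.finite_iUnion fun b => Polynomial.finite_setOf_isRoot (hk b)
  obtain ⟨q₁, hq₁, hq₁b⟩ : ∃ q ∈ ball (0 : ℂ × ℂ) (r / 2), g q a ∉ bad := by
    by_contra hcon'
    push Not at hcon'
    have hcont : ContinuousOn (fun q => g q a) (ball (0 : ℂ × ℂ) (r / 2)) := fun q hq =>
      ((hb1 q (ball_subset_ball (by linarith) hq)).2 a).continuousAt.continuousWithinAt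
    obtain ⟨y, -, hy⟩ := (convex_ball (0 : ℂ × ℂ) (r / 2)).isPreconnected.eqOn_const_of_mapsTo hbad.isDiscrete hcont (fun q hq => hcon' q hq)
      ⟨_, hcon' 0 (mem_ball_self (by positivity))⟩
    obtain ⟨q, hq, hqa⟩ := ha
    exact hqa ((hy hq).trans (hy (mem_ball_self (by positivity))).symm)
  -- the level set
  have hq₁r : q₁ ∈ ball (0 : ℂ × ℂ) r := ball_subset_ball (by linarith) hq₁
  have hinf : {q | q ∈ ball (0 : ℂ × ℂ) r ∧ g q a - g q₁ a = 0}.Infinite :=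
    infinite_zeros (((hb1 q₁ hq₁r).2 a).sub analyticAt_const) (sub_self _) (isOpen_ball.mem_nhds hq₁r)
  let val' : Fin (M + 1) → Set ℂ := fun b => {t | (∑ l : Fin (n b), Polynomial.C (∑ i : Fin (n b), c b (i, l) * g q₁ a ^ (i : ℕ)) *
    Polynomial.X ^ (l : ℕ)).IsRoot t}
  have hval : ∀ b, (val' b).Finite := by
    intro b
    refine Polynomial.finite_setOf_isRoot fun h => ?_
    have h1 := congrArg (fun p : Polynomial ℂ => p.coeff (k b)) h
    simp only [Polynomial.finset_sum_coeff, Polynomial.coeff_C_mul, Polynomial.coeff_X_pow, Polynomial.coeff_zero] at h1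
    rw [Finset.sum_eq_single (k b)] at h1
    · rw [if_pos rfl, mul_one] at h1
      apply hq₁b
      refine Set.mem_iUnion.2 ⟨b, ?_⟩
      show Polynomial.IsRoot _ _
      rw [Polynomial.IsRoot.def, Polynomial.eval_finset_sum]
      simpa using h1
    · intro i _ hi
      rw [if_neg, mul_zero]
      exact fun h => hi (Fin.ext h.symm)
    · exact fun h => absurd (Finset.mem_univ _) h
  have hmaps : Set.MapsTo g {q | q ∈ ball (0 : ℂ × ℂ) r ∧ g q a - g q₁ a = 0} (Set.univ.pi val') := by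
    rintro q ⟨hq, hqa⟩ b -
    have h1 := hcr b q hq
    rw [sub_eq_zero.1 hqa] at h1
    show Polynomial.IsRoot _ _
    rw [Polynomial.IsRoot.def, Polynomial.eval_finset_sum]
    rw [Fintype.sum_prod_type, Finset.sum_comm] at h1
    rw [← h1]
    refine Finset.sum_congr rfl fun l _ => ?_
    simp only [Polynomial.eval_mul, Polynomial.eval_C, Polynomial.eval_pow, Polynomial.eval_X]
    rw [Finset.sum_mul]
  obtain ⟨q, hq, q', hq', hne', hqq'⟩ := hinf.exists_ne_map_eq_of_mapsTo hmaps (Set.Finite.pi' hval |>.subset fun v hv b => hv b (Set.mem_univ b))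
  exact hne' (hb2 q hq.1 q' hq'.1 hqq')

end Pool.Agent.H4.LU
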