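import Pool.Agent.H4.LU.Defs
import Pool.Agent.H36.LB.Final
import Pool.Agent.H19Q.Surf
import Pool.Agent.H7.Qup.Defs

/-!
# LU BaseDefs: the class of surfaces
-/

set_option autoImplicit false

open MvPolynomial

noncomputable section

namespace Pool.Agent.H4.LU

open Pool.Agent.H17 (PN)
open Pool.Agent.H17EF (projVar)
open Pool.Agent.H13.SM (conTan)
open Pool.Agent.H36.LB (IsCurveComplement)
open Pool.Agent.H19Q (QSurface IsModification)

/-- `U` is the complement of a curve in a smooth projective surface, and there is an injective regular map `j : U → V` to a family of hyperbolic curves over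
`ℂ^*` as above, such that `e ∘ j` is a nonconstant rational function. -/
structure IsBaseU (U : QSurface) : Prop where
  /-- the closure of `U` is smooth -/
  smooth : ∀ y : Fin (U.N + 1) → ℂ, y ≠ 0 → (∀ Q ∈ U.P, eval y Q = 0) → Module.finrank ℂ (conTan U.P y) ≤ 3
  curve : IsCurveComplement U.P U.G
  model : ∃ (M : ℕ) (Y V : Set (PN M)) (e : PN M → ℂ) (j : PN U.N → PN M),
    IsModel Y V e ∧ IsHyperbolic Y V e ∧ HasLogForms Y V e ∧ IsRegularInto U.P U.G V e j

/-- The smallest class of quasi-projective surfaces which contains the surfaces `U` as in `IsBaseU` and has the following properties. -/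
inductive OverUnits : QSurface → Prop
  /-- the surfaces as in `IsBaseU` -/
  | base (U : QSurface) (hU : IsBaseU U) : OverUnits U
  /-- The class contains `U` if it contains a surface `U'` with a modification `U' → U`. -/
  | modification (U U' : QSurface) (p : PN U'.N → PN U.N) (hp : IsModification U.P U'.P U.G U'.G p) (h : OverUnits U') : OverUnits U
  /-- The class contains the smooth surface `U` if it contains a smooth surface `U'` with a finite unramified covering `U' → U`. -/
  | unramified (U U' : QSurface) (hs : U.Smooth) (hs' : U'.Smooth) (p : PN U'.N → PN U.N)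
      (hp : Pool.Agent.H62.Qe.IsUnramifiedOver U.P U'.P U.G U'.G p) (h : OverUnits U') : OverUnits U
  /-- The class contains `U` if there is a dominant regular map `U → U'` and `U'` is in the class and of log general type. -/
  | dominant (U U' : QSurface) (p : PN U.N → PN U'.N) (hp : Pool.Agent.H7.Qup.IsDominantMap U'.P U.P U'.G U.G p) (hgt : U'.LogGeneralType)
      (h : OverUnits U') : OverUnits U

end Pool.Agent.H4.LU
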