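import Pool.Agent.H4.LU.Out

/-!
# LU ConvJ: composition of limits with the regular map `j`
-/

set_option autoImplicit false

open Topology Filter MvPolynomial Metric

noncomputable section

namespace Pool.Agent.H4.LU

open Pool.Agent.H17 (PN VanishesAt HolomorphicInto vanishesAt_mk_iff)
open Pool.Agent.H62.SA (locVar)
open Pool.Agent.H7.Bir (vals rmap exists_comp pn_identity)
open Pool.Agent.H36.LB (ConvPN IsLimitPN)
open Pool.Agent.H13.OT (OrderTwo)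

variable {M N : ℕ}

/-- `ConvPN` depends only on the germ of the limit. -/
theorem convPN_congr {l : Filter ℕ} {F : ℕ → ℂ → PN N} {f f' : ℂ → PN N} {z₀ : ℂ} (h : ConvPN l F f z₀) (hf : ∀ᶠ z in 𝓝 z₀, f z = f' z) :
    ConvPN l F f' z₀ := by
  obtain ⟨s, Φ, Φ₀, hs, h1, h2, h3, h4⟩ := h
  obtain ⟨r, hr, hrf⟩ := Metric.eventually_nhds_iff_ball.1 hf
  have hm : ball z₀ (min s r) ⊆ ball z₀ s := ball_subset_ball (min_le_left _ _)
  refine ⟨min s r, Φ, Φ₀, lt_min hs hr, ?_, h2.mono hm, ?_, h4.mono hm⟩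
  · filter_upwards [h1] with n hn
    exact ⟨hn.1.mono hm, fun z hz => hn.2 z (hm hz)⟩
  · intro z hz
    obtain ⟨h5, h6⟩ := h3 z (hm hz)
    exact ⟨h5, by rw [← hrf z (ball_subset_ball (min_le_right _ _) hz), h6]⟩

/-- `ConvPN` is an open condition. -/
theorem convPN_open {l : Filter ℕ} {F : ℕ → ℂ → PN N} {f : ℂ → PN N} {z₀ : ℂ} (h : ConvPN l F f z₀) : ∀ᶠ z in 𝓝 z₀, ConvPN l F f z := by
  obtain ⟨s, Φ, Φ₀, hs, h1, h2, h3, h4⟩ := h
  filter_upwards [isOpen_ball.mem_nhds (mem_ball_self hs)] with z hz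
  have hz' : dist z z₀ < s := hz
  have hm : ball z (s - dist z z₀) ⊆ ball z₀ s := ball_subset_ball' (by linarith)
  exact ⟨s - dist z z₀, Φ, Φ₀, by linarith, h1.mono fun n hn => ⟨hn.1.mono hm, fun w hw => hn.2 w (hm hw)⟩, h2.mono hm,
    fun w hw => h3 w (hm hw), h4.mono hm⟩

theorem analyticAt_vals {γ : Fin (M + 1) → MvPolynomial (Fin (N + 1)) ℂ} {φ : ℂ → Fin (N + 1) → ℂ} {z : ℂ} (hφ : AnalyticAt ℂ φ z) :
    AnalyticAt ℂ (fun w => vals γ (φ w)) z :=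
  analyticAt_pi_iff.2 fun i => analyticAt_form (γ i) hφ

/-- `j ∘ g` is holomorphic where `g` is holomorphic with values in `U`. -/
theorem holInto_j {P : Ideal (MvPolynomial (Fin (N + 1)) ℂ)} {s : ℕ} {G : Fin s → MvPolynomial (Fin (N + 1)) ℂ} {V : Set (PN M)} {e : PN M → ℂ}
    {j : PN N → PN M} (hj : IsRegularInto P G V e j) {g : ℂ → PN N} {O : Set ℂ} (hO : IsOpen O) (hg : HolomorphicInto g O)
    (hgU : ∀ z ∈ O, g z ∈ locVar P G) : HolomorphicInto (fun z => j (g z)) O := by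
  intro z hz
  obtain ⟨φ, hφ, he⟩ := hg z hz
  obtain ⟨h0, h1⟩ := he.self_of_nhds
  obtain ⟨D, γ, hγ, hγ0, hγj⟩ := hj.regular (φ z) h0 (h1 ▸ hgU z hz)
  refine ⟨fun w => vals γ (φ w), analyticAt_vals hφ, ?_⟩
  have h2 : ∀ᶠ w in 𝓝 z, vals γ (φ w) ≠ 0 := (analyticAt_vals hφ).continuousAt.eventually_ne hγ0
  filter_upwards [h2, he, hO.mem_nhds hz] with w h3 h4 h5
  obtain ⟨h6, h7⟩ := h4
  refine ⟨h3, ?_⟩
  rw [h7]
  exact hγj _ h6 h3 (h7 ▸ hgU w h5)

/-- Where `F n → f`, with `f z ∈ U`, also `j ∘ F n → j ∘ f`. -/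
theorem conv_j {P : Ideal (MvPolynomial (Fin (N + 1)) ℂ)} {s : ℕ} {G : Fin s → MvPolynomial (Fin (N + 1)) ℂ} {V : Set (PN M)} {e : PN M → ℂ}
    {j : PN N → PN M} (hj : IsRegularInto P G V e j) {l : Filter ℕ} {F : ℕ → ℂ → PN N} {f : ℂ → PN N} (hl : IsLimitPN (locVar P G) l F f) {z₀ : ℂ}
    (h : ConvPN l F f z₀) : ConvPN l (fun n z => j (F n z)) (fun z => j (f z)) z₀ := by
  have hopen := convPN_open h
  obtain ⟨s, Φ, Φ₀, hs, h1, h2, h3, h4⟩ := h
  obtain ⟨h5, h6⟩ := h3 z₀ (mem_ball_self hs)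
  have hf0 : f z₀ ∈ locVar P G := hl.mem_of_conv z₀ hopen.self_of_nhds
  obtain ⟨D, γ, hγ, hγ0, hγj⟩ := hj.regular (Φ₀ z₀) h5 (h6 ▸ hf0)
  -- a compact ball where `γ (Φ₀)` is not zero
  have hcont : ContinuousAt Φ₀ z₀ := (h2.differentiableAt (isOpen_ball.mem_nhds (mem_ball_self hs))).continuousAt
  have hvc : Continuous fun x : Fin (N + 1) → ℂ => vals γ x := continuous_pi fun i => MvPolynomial.continuous_eval (γ i)
  have h7 : ∀ᶠ z in 𝓝 z₀, vals γ (Φ₀ z) ≠ 0 := (hvc.continuousAt.comp hcont).eventually_ne hγ0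
  have hpos : 0 < ‖vals γ (Φ₀ z₀)‖ := norm_pos_iff.2 hγ0
  have h7' : ∀ᶠ z in 𝓝 z₀, ‖vals γ (Φ₀ z₀)‖ / 2 < ‖vals γ (Φ₀ z)‖ :=
    (hvc.continuousAt.comp hcont).norm.eventually_const_lt (show ‖vals γ (Φ₀ z₀)‖ / 2 < ‖vals γ (Φ₀ z₀)‖ by linarith)
  obtain ⟨r, hr, hrb⟩ := Metric.eventually_nhds_iff_ball.1 ((h7'.and hopen).and (isOpen_ball.mem_nhds (mem_ball_self hs)))
  have hsub : closedBall z₀ (r / 2) ⊆ ball z₀ r := closedBall_subset_ball (by linarith)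
  have hsub1 : ball z₀ (r / 2) ⊆ ball z₀ r := ball_subset_closedBall.trans hsub
  have hsub2 : ball z₀ r ⊆ ball z₀ s := fun z hz => (hrb z hz).2
  have hlim2 : TendstoLocallyUniformlyOn (fun n z => vals γ (Φ n z)) (fun z => vals γ (Φ₀ z)) l (ball z₀ s) :=
    Pool.Agent.H36.LB.tlu_comp h4 h2.continuousOn fun x _ => hvc.continuousAt
  have hunif : ∀ᶠ n in l, ∀ z ∈ closedBall z₀ (r / 2), dist (vals γ (Φ₀ z)) (vals γ (Φ n z)) < ‖vals γ (Φ₀ z₀)‖ / 2 := by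
    have h1 := (tendstoLocallyUniformlyOn_iff_tendstoUniformlyOn_of_compact (isCompact_closedBall z₀ (r / 2))).1
      (hlim2.mono fun z hz => hsub2 (hsub hz))
    exact Metric.tendstoUniformlyOn_iff.1 h1 _ (by positivity)
  have hbig : ∀ᶠ n in l, ∀ z ∈ ball z₀ (r / 2), F n z ∈ locVar P G := by
    filter_upwards [hl.le_atTop (eventually_ge_atTop ⌈‖z₀‖ + r⌉₊)] with n hn z hz
    refine hl.memF n z ?_
    rw [mem_ball_zero_iff]
    have h8 : ‖z‖ ≤ ‖z₀‖ + r / 2 := by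
      have h9 := norm_sub_norm_le z z₀
      rw [mem_ball, dist_eq_norm] at hz
      linarith
    have h9 : ‖z₀‖ + r ≤ n := (Nat.le_ceil _).trans (Nat.cast_le.2 hn)
    linarith
  have hvd : ∀ {φ : ℂ → Fin (N + 1) → ℂ} {z : ℂ}, DifferentiableAt ℂ φ z → DifferentiableAt ℂ (fun w => vals γ (φ w)) z := by
    intro φ z hφ
    rw [differentiableAt_pi]
    intro i
    have h8 : DifferentiableAt ℂ (fun x : Fin (N + 1) → ℂ => eval x (γ i)) (φ z) :=
      (analyticAt_form (γ i) analyticAt_id).differentiableAt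
    exact h8.comp z hφ
  refine ⟨r / 2, fun n z => vals γ (Φ n z), fun z => vals γ (Φ₀ z), by positivity, ?_, ?_, ?_, hlim2.mono fun z hz => hsub2 (hsub1 hz)⟩
  · filter_upwards [h1, hunif, hbig] with n h8 h9 h10
    refine ⟨fun z hz => (hvd (h8.1.differentiableAt (isOpen_ball.mem_nhds (hsub2 (hsub1 hz))))).differentiableWithinAt, fun z hz => ?_⟩
    have h11 : vals γ (Φ n z) ≠ 0 := by
      intro h12
      have h13 := h9 z (ball_subset_closedBall hz)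
      rw [h12, dist_zero_right] at h13
      linarith [(hrb z (hsub1 hz)).1.1]
    obtain ⟨h12, h13⟩ := h8.2 z (hsub2 (hsub1 hz))
    refine ⟨h11, ?_⟩
    show j (F n z) = _
    rw [h13]
    exact hγj _ h12 h11 (h13 ▸ h10 z hz)
  · exact fun z hz => (hvd (h2.differentiableAt (isOpen_ball.mem_nhds (hsub2 (hsub1 hz))))).differentiableWithinAt
  · intro z hz
    have h11 : vals γ (Φ₀ z) ≠ 0 := by
      intro h12
      have h13 := (hrb z (hsub1 hz)).1.1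
      rw [h12, norm_zero] at h13
      linarith
    obtain ⟨h12, h13⟩ := h3 z (hsub2 (hsub1 hz))
    refine ⟨h11, ?_⟩
    show j (f z) = _
    have h14 : f z ∈ locVar P G := hl.mem_of_conv z (hrb z (hsub1 hz)).1.2
    rw [h13] at h14 ⊢
    exact hγj _ h12 h11 h14

end Pool.Agent.H4.LU
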