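import Pool.Agent.H18.LU.Lc
import Pool.Agent.H36.LB.PNDefs
import Pool.Agent.H36.BP.Lift
import Pool.Agent.H17EF.MainE

/-!
# LU Lif: lifts over discs, convergence of the projections (by helper19)
-/

set_option autoImplicit false

open Topology Filter MvPolynomial Metric

noncomputable section

namespace Pool.Agent.H4.LU.Lif

open Pool.Agent.H17 (PN VanishesAt HolomorphicInto ZariskiClosedIn)
open Pool.Agent.H62.FC (Homog)
open Pool.Agent.H62.EF (MN pr Lat TorusMap Sec pr_smul pr_eq_iff continuousAt_pr)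
open Pool.Agent.H13.SM (cone)
open Pool.Agent.H36.BP (EN fs wd)
open Pool.Agent.H17EF (projVar IsHolomorphicMap coneE uE LE prP prP_mk mk_symm prP_injective LE_ne_zero mem_coneE mk_mem_projVar exists_lift)
open Pool.Agent.H36.LB (ConvPN IsLimitPN)
open Pool.Agent.H18.LU (LCur)

variable {N : ℕ}

/-- a lift over a disc -/
theorem lift_big {f : ℂ → PN N} {r ρ : ℝ} (hr : 0 < r) (hρ : r < ρ) (hf : HolomorphicInto f (ball 0 ρ)) :
    ∃ F : ℂ → EN N, DifferentiableOn ℂ F (ball 0 r) ∧ ∀ z ∈ ball (0 : ℂ) r, ∃ h : (LE N).symm (F z) ≠ 0, f z = Projectivization.mk ℂ ((LE N).symm (F z)) h := by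
  have hρ0 : 0 < ρ := hr.trans hρ
  have hρc : (ρ : ℂ) ≠ 0 := by exact_mod_cast hρ0.ne'
  have hg : HolomorphicInto (fun z => f ((ρ : ℂ) * z)) (ball 0 1) := by
    intro z hz
    have h1 : (ρ : ℂ) * z ∈ ball (0 : ℂ) ρ := by
      rw [mem_ball_zero_iff] at hz ⊢
      rw [norm_mul, Complex.norm_real, Real.norm_of_nonneg hρ0.le]
      nlinarith
    obtain ⟨φ, hφ, hφ'⟩ := hf _ h1
    have h2 : AnalyticAt ℂ (fun z : ℂ => (ρ : ℂ) * z) z := analyticAt_const.mul analyticAt_id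
    exact ⟨fun z => φ ((ρ : ℂ) * z), AnalyticAt.fun_comp (g := φ) (f := fun z : ℂ => (ρ : ℂ) * z) hφ h2, h2.continuousAt.tendsto.eventually hφ'⟩
  obtain ⟨F, hF, hFf⟩ := Pool.Agent.H36.BP.lift_disc hg (r := r / ρ) (by positivity) ((div_lt_one hρ0).2 hρ)
  have hmap : ∀ z ∈ ball (0 : ℂ) r, z / (ρ : ℂ) ∈ ball (0 : ℂ) (r / ρ) := by
    intro z hz
    rw [mem_ball_zero_iff] at hz ⊢
    rw [norm_div, Complex.norm_real, Real.norm_of_nonneg hρ0.le]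
    exact (div_lt_div_iff_of_pos_right hρ0).2 hz
  refine ⟨fun z => F (z / (ρ : ℂ)), hF.comp (differentiable_id.div_const _).differentiableOn hmap, fun z hz => ?_⟩
  obtain ⟨h, h'⟩ := hFf _ (hmap z hz)
  have h2 : (ρ : ℂ) * (z / (ρ : ℂ)) = z := by field_simp
  have h3 : f z = f ((ρ : ℂ) * (z / (ρ : ℂ))) := by rw [h2]
  exact ⟨h, h3.trans h'⟩

theorem convPN_open {l : Filter ℕ} {F : ℕ → ℂ → PN N} {f : ℂ → PN N} : IsOpen {z | ConvPN l F f z} := by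
  rw [Metric.isOpen_iff]
  rintro z ⟨s, Φ, Φ₀, hs, hΦ, hΦ₀, hf, hlim⟩
  refine ⟨s, hs, fun w hw => ?_⟩
  obtain ⟨t, ht, htb⟩ := Metric.mem_nhds_iff.1 (isOpen_ball.mem_nhds hw)
  refine ⟨t, Φ, Φ₀, ht, ?_, hΦ₀.mono htb, fun y hy => hf y (htb hy), hlim.mono htb⟩
  filter_upwards [hΦ] with n hn
  exact ⟨hn.1.mono htb, fun y hy => hn.2 y (htb hy)⟩

/-- the convergence of the projections -/
theorem convPN_unif {l : Filter ℕ} {F : ℕ → ℂ → PN N} {f : ℂ → PN N} :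
    TendstoLocallyUniformlyOn (fun n z => prP (F n z)) (fun z => prP (f z)) l {z | ConvPN l F f z} := by
  rw [Metric.tendstoLocallyUniformlyOn_iff]
  intro ε hε z₀ hz₀
  obtain ⟨s, Φ, Φ₀, hs, hΦ, hΦ₀, hf, hlim⟩ := hz₀
  have hz₀s : z₀ ∈ ball z₀ s := mem_ball_self hs
  have hx0 : (LE N) (Φ₀ z₀) ≠ 0 := LE_ne_zero (hf z₀ hz₀s).1
  have hc : ContinuousAt (fun x : Fin (N + 1) → ℂ => pr ((LE N) x)) (Φ₀ z₀) :=
    (continuousAt_pr hx0).comp (LE N).continuous.continuousAt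
  obtain ⟨η, hη, hpr⟩ := Metric.continuousAt_iff.1 hc (ε / 2) (by positivity)
  have hHc : ∀ᶠ z in 𝓝 z₀, dist (Φ₀ z) (Φ₀ z₀) < η / 2 :=
    Metric.tendsto_nhds.1 (hΦ₀.continuousOn.continuousAt (isOpen_ball.mem_nhds hz₀s)) _ (by positivity)
  obtain ⟨t, ht, hev⟩ := (Metric.tendstoLocallyUniformlyOn_iff.1 hlim) (η / 2) (by positivity) z₀ hz₀s
  rw [isOpen_ball.nhdsWithin_eq hz₀s] at ht
  refine ⟨t ∩ ({z | dist (Φ₀ z) (Φ₀ z₀) < η / 2} ∩ ball z₀ s), mem_nhdsWithin_of_mem_nhds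
    (inter_mem ht (inter_mem hHc (ball_mem_nhds z₀ hs))), ?_⟩
  filter_upwards [hev, hΦ] with n hn hφn
  rintro w ⟨hwt, hw1, hw2⟩
  have hw1' : dist (Φ₀ w) (Φ₀ z₀) < η / 2 := hw1
  have h1 : dist (pr ((LE N) (Φ₀ w))) (pr ((LE N) (Φ₀ z₀))) < ε / 2 := hpr (hw1'.trans (by linarith))
  have h2 : dist (Φ n w) (Φ₀ z₀) < η := by
    have h3 := hn w hwt
    rw [dist_comm] at h3
    exact (dist_triangle _ (Φ₀ w) _).trans_lt (by linarith)
  have h3 : dist (pr ((LE N) (Φ n w))) (pr ((LE N) (Φ₀ z₀))) < ε / 2 := hpr h2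
  obtain ⟨h4, h4'⟩ := hf w hw2
  obtain ⟨h5, h5'⟩ := hφn.2 w hw2
  show dist (prP (f w)) (prP (F n w)) < ε
  rw [h4', h5', prP_mk, prP_mk]
  rw [dist_comm] at h3
  exact (dist_triangle _ (pr ((LE N) (Φ₀ z₀))) _).trans_lt (by linarith)

end Pool.Agent.H4.LU.Lif
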