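import Pool.Agent.H4.LU.Hol
import Pool.Agent.H6.LU.LBs
import Pool.Agent.H6.LU.Bad
import Pool.Agent.H4.LU.Lif

/-!
# LU Con: limit curves in the fibres are constant
-/

set_option autoImplicit false

open Topology Filter MvPolynomial Metric

noncomputable section

namespace Pool.Agent.H4.LU

open Pool.Agent.H17 (PN VanishesAt HolomorphicInto)
open Pool.Agent.H62.EF (MN pr TorusMap pr_smul pr_eq_iff)
open Pool.Agent.H62.EL (BadSet)
open Pool.Agent.H36.BP (EN coneOf)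
open Pool.Agent.H17EF (LE prP prP_mk mk_symm prP_injective LE_ne_zero exists_lift)
open Pool.Agent.H36.LB (ConvPN)
open Pool.Agent.H18.LU (LCur LBase lcur_fibre)
open Pool.Agent.H6.LU
open Pool.Agent.H4.LU.Lif (lift_big convPN_unif)

variable {M : ℕ}

/-- bad values for the constant curves -/
theorem exists_lbase {Y V : Set (PN M)} {e : PN M → ℂ} (hY : IsModel Y V e) (hh : IsHyperbolic Y V e) :
    ∃ (B₁ : Set ℂ) (a : ℂ) (δ : ℝ), B₁.Finite ∧ LBase (XX Y V e) (DH Y V e) Lam (Gam 1) (uu V e a) (BB B₁ a) δ := by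
  obtain ⟨B, hB, hBf⟩ := hh.fibre
  set B₁ : Set ℂ := (B ∪ CV Y V e) \ {0} with hB₁
  have hB₁f : B₁.Finite := (hB.union (finite_CV hY)).subset Set.diff_subset
  have h0 : (0 : ℂ) ∉ B₁ := fun h => h.2 rfl
  obtain ⟨a, ha⟩ : ∃ a : ℂ, Complex.exp a ∉ B₁ := by
    obtain ⟨w, hw⟩ := (hB₁f.union (Set.finite_singleton (0 : ℂ))).infinite_compl.nonempty
    have hw0 : w ≠ 0 := fun h => hw (Or.inr h)
    refine ⟨Complex.log w, ?_⟩
    rw [Complex.exp_log hw0]
    exact fun h => hw (Or.inl h)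
  obtain ⟨δ, hδ, hδ'⟩ := bad_set hB₁f h0 ha
  obtain ⟨hbad, hzero⟩ := hδ' δ hδ le_rfl
  refine ⟨B₁, a, δ, hB₁f, lbase hY le_rfl hbad hzero ?_ ?_⟩
  · rintro w hw
    refine ⟨Or.inr hw, ?_⟩
    obtain ⟨x, σ, τ, c, i, j, -, -, rfl⟩ := hw
    exact Complex.exp_ne_zero c
  · intro c hc f hf hfV
    by_cases hc0 : c = 0
    · exfalso
      obtain ⟨hV, he⟩ := hfV 0
      exact e_ne_zero hY hV (he.trans hc0)
    · exact hBf c (fun h => hc ⟨Or.inl h, hc0⟩) f hf hfV

/-- **Limit curves in the fibres are constant.** -/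
theorem exists_const {Y V : Set (PN M)} {e : PN M → ℂ} (hY : IsModel Y V e) (hh : IsHyperbolic Y V e) : ∃ B₀ : Set ℂ, B₀.Finite ∧ Const V e B₀ := by
  obtain ⟨B₁, a, δ, hB₁, E⟩ := exists_lbase hY hh
  refine ⟨B₁, hB₁, ?_⟩
  intro l G g c hne hl hg hG hc hlim
  obtain ⟨H, hHd, hHg⟩ := exists_lift hg
  have hof : ∀ x : EN M, (LE M).symm x = x.ofLp := fun _ => rfl
  have hH0 : ∀ z, (H z).ofLp ≠ 0 := fun z => (hHg z).1
  -- the good points
  have hgood : ∀ z₀, ∀ᶠ z in 𝓝[≠] z₀, H z ∈ coneOf V ∧ ev e (H z) = c := by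
    intro z₀
    filter_upwards [hlim z₀] with z hz
    obtain ⟨-, h1, h2⟩ := hz
    obtain ⟨h3, h4⟩ := hHg z
    rw [h4] at h1 h2
    exact ⟨⟨h3, h1⟩, (ev_of (e := e) (x := H z) h3).trans h2⟩
  have hc0 : c ≠ 0 := by
    obtain ⟨z, h1, h2⟩ := (hgood 0).exists
    rw [← h2]
    exact ev_ne_zero hY h1
  have hmemV : ∀ z, H z ∈ closure (coneOf V) ∧ Tendsto H (𝓝[≠] z) (𝓝[coneOf V] (H z)) := by
    intro z
    have h1 : Tendsto H (𝓝[≠] z) (𝓝 (H z)) := hHd.continuous.continuousAt.tendsto.mono_left nhdsWithin_le_nhds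
    have h2 : Tendsto H (𝓝[≠] z) (𝓝[coneOf V] (H z)) :=
      tendsto_nhdsWithin_iff.2 ⟨h1, (hgood z).mono fun w hw => hw.1⟩
    exact ⟨mem_closure_iff_nhdsWithin_neBot.2 (h2.neBot), h2⟩
  have hval : ∀ z, H z ∈ coneOf Y ∧ Tendsto (ev e) (𝓝[coneOf V] (H z)) (𝓝 c) := by
    intro z
    obtain ⟨h1, h2⟩ := hmemV z
    have hHY : H z ∈ coneOf Y := closed_coneOf hY _ (closure_mono (coneOf_mono hY.sub) h1) (by
      intro h3
      apply hH0 z
      rw [h3]
      rfl)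
    refine ⟨hHY, ?_⟩
    have h3 : Tendsto (fun w => ev e (H w)) (𝓝[≠] z) (𝓝 c) :=
      tendsto_const_nhds.congr' ((hgood z).mono fun w hw => hw.2.symm)
    rcases cover hY hHY with ⟨-, c', hc', h4⟩ | ⟨-, h4⟩ | ⟨-, h4⟩
    · rwa [tendsto_nhds_unique (h4.comp h2) h3] at h4
    · exact absurd (tendsto_nhds_unique (h4.comp h2) h3).symm hc0
    · exfalso
      have h5 : Tendsto (fun w => ev (fun y => (e y)⁻¹) (H w)) (𝓝[≠] z) (𝓝 c⁻¹) := by
        refine tendsto_const_nhds.congr' ((hgood z).mono fun w hw => ?_)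
        show c⁻¹ = ev (fun y => (e y)⁻¹) (H w)
        rw [ev_inv e hw.1.1, hw.2]
      exact inv_ne_zero hc0 (tendsto_nhds_unique (h4.comp h2) h5).symm
  have hXX : ∀ z, H z ∈ XX Y V e := fun z => ⟨(hval z).1, c, hc0, (hval z).2⟩
  -- the limit curve
  have hL : H ∈ LCur (XX Y V e) (DH Y V e) := by
    refine ⟨hHd, hXX, {z | ConvPN l G g z}ᶜ, Pool.Agent.H4.LU.Lif.convPN_open.isClosed_compl, ?_, ?_⟩
    · intro z
      filter_upwards [hlim z] with w hw
      exact fun hn => hn hw.1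
    · intro R ε hε K hK hKZ
      have hKC : K ⊆ {z | ConvPN l G g z} := fun z hz => not_not.1 (hKZ z hz)
      have h1 : TendstoUniformlyOn (fun n z => prP (G n z)) (fun z => prP (g z)) l K :=
        (tendstoLocallyUniformlyOn_iff_tendstoUniformlyOn_of_compact hK).1 (convPN_unif.mono hKC)
      have h2 := Metric.tendstoUniformlyOn_iff.1 h1 ε hε
      have h3 : ∀ᶠ n : ℕ in l, |R| + 1 < (n : ℝ) + 1 := by
        refine hl ?_
        have : Tendsto (fun n : ℕ => (n : ℝ) + 1) atTop atTop := tendsto_natCast_atTop_atTop.atTop_add tendsto_const_nhds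
        exact this.eventually_gt_atTop _
      haveI := hne
      obtain ⟨n, hn1, hn2⟩ := (h2.and h3).exists
      have hR : R ≤ |R| := le_abs_self R
      obtain ⟨F, hF, hFG⟩ := lift_big (r := |R| + 1) (by positivity) hn2 (hG n).1
      have hball : ∀ z : ℂ, ‖z‖ ≤ R → z ∈ ball (0 : ℂ) (|R| + 1) := fun z hz => by
        rw [mem_ball_zero_iff]
        linarith
      refine ⟨F, fun z hz => ?_, fun z hz hzR => ?_⟩
      · have hzb := hball z (by simpa using hz)
        obtain ⟨h4, h4'⟩ := hFG z hzb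
        have h5 : G n z ∈ V := (hG n).2 z (by
          rw [mem_ball_zero_iff] at hzb ⊢
          linarith)
        rw [h4'] at h5
        have h6 : F z ∈ coneOf V := ⟨h4, h5⟩
        rw [← XX_diff hY] at h6
        exact ⟨hF.analyticAt (isOpen_ball.mem_nhds hzb), h6.1, h6.2⟩
      · obtain ⟨h4, h4'⟩ := hFG z (hball z hzR)
        obtain ⟨h5, h5'⟩ := hHg z
        have h6 := hn1 z hz
        rw [h4', h5', mk_symm h4, mk_symm h5, dist_comm] at h6
        exact h6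
  -- constancy
  have hu : ∀ z, uu V e a (H z) - (Complex.log c - a) ∈ Lam := by
    intro z
    rw [uu_mem hY (hval z).1 hc0 (hval z).2, sub_add_cancel, Complex.exp_log hc0]
  have hcB : Complex.log c - a ∉ BB B₁ a := by
    intro h1
    have h2 : Complex.exp (Complex.log c - a + a) ∈ B₁ := h1
    rw [sub_add_cancel, Complex.exp_log hc0] at h2
    exact hc h2
  intro z w
  have h1 := lcur_fibre E.toLFib hL hu hcB z w
  have hne' : ∀ z, H z ≠ 0 := fun z h3 => hH0 z (by rw [h3]; rfl)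
  obtain ⟨b, hb, h2⟩ := (pr_eq_iff (hne' z) (hne' w)).1 h1
  obtain ⟨h3, h3'⟩ := hHg z
  obtain ⟨h4, h4'⟩ := hHg w
  rw [h3', h4']
  refine (Projectivization.mk_eq_mk_iff' ℂ _ _ _ _).2 ⟨b, ?_⟩
  rw [← map_smul, ← h2]

end Pool.Agent.H4.LU
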