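import Pool.Agent.H62.Qe.Defs

/-!
# LU Defs: semistable families of curves over `ℙ¹` (project LOG-U), definitions in `ℙ^M`

`Y ⊆ ℙ^M` is closed, `V ⊆ Y` open, `e : V → ℂ^*`.  Over `ℂ^*` the surface `Y` is smooth, the fibres of `e` have normal crossings (multiplicities are
allowed), and `Y \ V` is a smooth curve which is transversal to the reduced fibres.  Over `0` and `∞` the fibres are reduced with normal crossings, `Y \ V`
is the fibre together with a curve which is transversal to it and avoids its nodes, and `Y` has at most singularities `x y = e ^ k` at the nodes of the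
fibre.
-/

set_option autoImplicit false

open Topology Filter MvPolynomial

noncomputable section

namespace Pool.Agent.H4.LU

open Pool.Agent.H17 (PN VanishesAt HolomorphicInto)
open Pool.Agent.H17EF (projVar)
open Pool.Agent.H62.SA (locVar)
open Pool.Agent.H7.Bir (vals)

variable {M N : ℕ}

/-- The point of `ℙ^M` with the homogeneous coordinates `x` is a point of `Y` (and `x ≠ 0`). -/
def Mem (Y : Set (PN M)) (x : Fin (M + 1) → ℂ) : Prop := ∃ h : x ≠ 0, Projectivization.mk ℂ x h ∈ Y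

/-- The value of the function `e` at the point with the homogeneous coordinates `x`. -/
def val (e : PN M → ℂ) (x : Fin (M + 1) → ℂ) : ℂ := by
  classical exact if h : x ≠ 0 then e (Projectivization.mk ℂ x h) else 0

/-- `σ` (in homogeneous coordinates) is a parametrisation of a neighbourhood of the point `y` in `Y` by a neighbourhood of `0` in `ℂ²` modulo the group
of the maps `(s, t) ↦ (ζ s, ζ⁻¹ t)`, `ζ ^ k = 1`.  The functions `s ^ k` and `t ^ k` of the points of `Y` are the restrictions of holomorphic functions,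
the components of `τ`.  For `k = 1` the functions `s, t` are local coordinates of the surface `Y` at `y`.  (For `k ≥ 2` this is used at the nodes of
the fibres over `0` and `∞`.) -/
structure IsParam (Y : Set (PN M)) (k : ℕ) (σ : ℂ × ℂ → Fin (M + 1) → ℂ) (τ : (Fin (M + 1) → ℂ) → ℂ × ℂ) (y : PN M) : Prop where
  analytic : AnalyticAt ℂ σ 0
  analytic' : AnalyticAt ℂ τ (σ 0)
  center : ∃ h : σ 0 ≠ 0, Projectivization.mk ℂ (σ 0) h = y
  mem : ∀ᶠ p in 𝓝 (0 : ℂ × ℂ), Mem Y (σ p)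
  inv : ∀ᶠ q in 𝓝 (σ 0, (1 : ℂ)), τ (q.2 • q.1) = τ q.1
  coord : ∀ᶠ p in 𝓝 (0 : ℂ × ℂ), τ (σ p) = (p.1 ^ k, p.2 ^ k)
  onto : ∀ᶠ x in 𝓝 (σ 0), Mem Y x → ∃ (a : ℂ) (p : ℂ × ℂ), a ≠ 0 ∧ x = a • σ p ∧ τ x = (p.1 ^ k, p.2 ^ k)
  quot : ∀ᶠ p in 𝓝 (0 : ℂ × ℂ), ∀ ζ : ℂ, ζ ^ k = 1 → ∃ a : ℂ, a ≠ 0 ∧ σ (ζ * p.1, ζ⁻¹ * p.2) = a • σ p

/-- `y` is a point of `V`, and `e = exp (c + s ^ i t ^ j)`, `i ≥ 1`, in local coordinates `s, t` of `Y` at `y`. -/
def IsInner (Y V : Set (PN M)) (e : PN M → ℂ) (y : PN M) : Prop :=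
  ∃ (σ : ℂ × ℂ → Fin (M + 1) → ℂ) (τ : (Fin (M + 1) → ℂ) → ℂ × ℂ) (c : ℂ) (i j : ℕ), IsParam Y 1 σ τ y ∧ 1 ≤ i ∧
    ∀ᶠ p in 𝓝 (0 : ℂ × ℂ), Mem V (σ p) ∧ val e (σ p) = Complex.exp (c + p.1 ^ i * p.2 ^ j)

/-- A chart at a point of the boundary curve which is not over `0` or `∞`: in the local coordinates `s, t` of `Y` the curve `Y \ V` is `t = 0`, and
`e = exp (c + s ^ i)`, `i ≥ 1`. -/
def IsHorChart (Y V : Set (PN M)) (e : PN M → ℂ) (σ : ℂ × ℂ → Fin (M + 1) → ℂ) (τ : (Fin (M + 1) → ℂ) → ℂ × ℂ) (y : PN M) : Prop :=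
  IsParam Y 1 σ τ y ∧ ∃ (c : ℂ) (i : ℕ), 1 ≤ i ∧
    ∀ᶠ p in 𝓝 (0 : ℂ × ℂ), (Mem V (σ p) ↔ p.2 ≠ 0) ∧ (p.2 ≠ 0 → val e (σ p) = Complex.exp (c + p.1 ^ i))

/-- A chart at a point of the fibre `e = 0`, which is a smooth point of this fibre (`nd = false`) or a node of this fibre (`nd = true`):
`e = s` and `Y \ V` is `s = 0`, or `s t = 0` (if `hor = true`), in local coordinates `s, t` of `Y`, respectively `e = s t` and `Y \ V` is `s t = 0`,
in local coordinates `s, t` of a covering of `Y` with the group `ℤ / k` (so `Y` has a singularity `x y = e ^ k`). -/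
def IsEndChart (Y V : Set (PN M)) (e : PN M → ℂ) (k : ℕ) (nd hor : Bool) (σ : ℂ × ℂ → Fin (M + 1) → ℂ)
    (τ : (Fin (M + 1) → ℂ) → ℂ × ℂ) (y : PN M) : Prop :=
  IsParam Y k σ τ y ∧ 1 ≤ k ∧ (nd = false → k = 1) ∧
    ∀ᶠ p in 𝓝 (0 : ℂ × ℂ), (Mem V (σ p) ↔ p.1 ≠ 0 ∧ (nd = true ∨ hor = true → p.2 ≠ 0)) ∧
      (Mem V (σ p) → val e (σ p) = if nd = true then p.1 * p.2 else p.1)

/-- `y` is a point of `Y` over `0`. -/
def IsEnd (Y V : Set (PN M)) (e : PN M → ℂ) (y : PN M) : Prop :=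
  ∃ (k : ℕ) (nd hor : Bool) (σ : ℂ × ℂ → Fin (M + 1) → ℂ) (τ : (Fin (M + 1) → ℂ) → ℂ × ℂ), IsEndChart Y V e k nd hor σ τ y

/-- `y` is a smooth point of the fibre over `0`, and not in the closure of the boundary curve over `ℂ^*`. -/
def IsRegularEnd (Y V : Set (PN M)) (e : PN M → ℂ) (y : PN M) : Prop :=
  ∃ (σ : ℂ × ℂ → Fin (M + 1) → ℂ) (τ : (Fin (M + 1) → ℂ) → ℂ × ℂ), IsEndChart Y V e 1 false false σ τ y

/-- `Y ⊆ ℙ^M` is closed and `e : V → ℂ^*` is a family of curves with a semistable compactification `Y` over `ℙ¹`. -/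
structure IsModel (Y V : Set (PN M)) (e : PN M → ℂ) : Prop where
  closed : ∀ x : Fin (M + 1) → ℂ, x ≠ 0 → x ∈ closure {x' | Mem Y x'} → Mem Y x
  sub : V ⊆ Y
  point : ∀ y ∈ Y, IsInner Y V e y ∨ (∃ σ τ, IsHorChart Y V e σ τ y) ∨ IsEnd Y V e y ∨ IsEnd Y V (fun y => (e y)⁻¹) y
  /-- the fibre over `0` has finitely many nodes, and the boundary curve meets it in finitely many points -/
  zero : {y ∈ Y | IsEnd Y V e y ∧ ¬ IsRegularEnd Y V e y}.Finite
  /-- the same for the fibre over `∞` -/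
  infty : {y ∈ Y | IsEnd Y V (fun y => (e y)⁻¹) y ∧ ¬ IsRegularEnd Y V (fun y => (e y)⁻¹) y}.Finite

/-- The curves are hyperbolic: the fibres of `e : V → ℂ^*` outside a finite set contain no nonconstant entire curves, and the same is true for the fibres over
`0` and `∞` without their nodes and without the points of the boundary curve. -/
structure IsHyperbolic (Y V : Set (PN M)) (e : PN M → ℂ) : Prop where
  fibre : ∃ B : Set ℂ, B.Finite ∧ ∀ c, c ∉ B → ∀ f : ℂ → PN M, HolomorphicInto f Set.univ → (∀ z, f z ∈ V ∧ e (f z) = c) → ∀ z w, f z = f w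
  zero : ∀ f : ℂ → PN M, HolomorphicInto f Set.univ → (∀ z, IsRegularEnd Y V e (f z)) → ∀ z w, f z = f w
  infty : ∀ f : ℂ → PN M, HolomorphicInto f Set.univ → (∀ z, IsRegularEnd Y V (fun y => (e y)⁻¹) (f z)) → ∀ z w, f z = f w

/-- The point with the homogeneous coordinates `x` is a point of `V` over `exp z`. -/
def Over (V : Set (PN M)) (e : PN M → ℂ) (z : ℂ) (x : Fin (M + 1) → ℂ) : Prop := Mem V x ∧ val e x = Complex.exp z

/-- `v` is a tangent vector at `x` of the affine cone over `V`. -/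
def IsTangent (V : Set (PN M)) (x v : Fin (M + 1) → ℂ) : Prop :=
  ∃ γ : ℂ → Fin (M + 1) → ℂ, AnalyticAt ℂ γ 0 ∧ γ 0 = x ∧ deriv γ 0 = v ∧ ∀ᶠ z in 𝓝 (0 : ℂ), Mem V (γ z)

/-- `Ω` is a holomorphic `2`-form on the surface `V_m = {(x, v) : x ∈ V, v ^ m = e x}`, with at most logarithmic poles at the boundary curve and at the fibres
over `0` and `∞`.  It is given as a function of `z`, `v = exp (z / m)`, the homogeneous coordinates of `x`, and two tangent vectors of the cone over `V`. -/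
structure IsLogForm (Y V : Set (PN M)) (e : PN M → ℂ) (m : ℕ)
    (Ω : ℂ → (Fin (M + 1) → ℂ) → (Fin (M + 1) → ℂ) → (Fin (M + 1) → ℂ) → ℂ) : Prop where
  /-- the form depends only on `exp (z / m)` -/
  periodic : ∀ z x, Over V e z x → ∀ v w, IsTangent V x v → IsTangent V x w → Ω (z + 2 * Real.pi * Complex.I * m) x v w = Ω z x v w
  /-- the form depends only on the images of the tangent vectors in the tangent space of the projective space -/
  horizontal : ∀ z x, Over V e z x → ∀ v w, IsTangent V x v → IsTangent V x w → ∀ a b : ℂ, Ω z x (v + a • x) (w + b • x) = Ω z x v w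
  /-- the form is bilinear and alternating -/
  alternating : ∀ z x, Over V e z x → ∀ v w, IsTangent V x v → IsTangent V x w → ∀ a b c d : ℂ,
    Ω z x (a • v + b • w) (c • v + d • w) = (a * d - b * c) * Ω z x v w
  /-- the form does not depend on the choice of the homogeneous coordinates -/
  homogeneous : ∀ z x, Over V e z x → ∀ v w, IsTangent V x v → IsTangent V x w → ∀ c : ℂ, c ≠ 0 → Ω z (c • x) (c • v) (c • w) = Ω z x v w
  /-- the form is holomorphic -/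
  holomorphic : ∀ (φ : ℂ × ℂ → Fin (M + 1) → ℂ) (υ : ℂ × ℂ → ℂ) (p : ℂ × ℂ), AnalyticAt ℂ φ p → AnalyticAt ℂ υ p →
    (∀ᶠ y in 𝓝 p, Over V e (υ y) (φ y)) → AnalyticAt ℂ (fun y => Ω (υ y) (φ y) (fderiv ℂ φ y (1, 0)) (fderiv ℂ φ y (0, 1))) p
  /-- at most logarithmic poles at the boundary curve -/
  hor : ∀ (σ : ℂ × ℂ → Fin (M + 1) → ℂ) (τ : (Fin (M + 1) → ℂ) → ℂ × ℂ) (y : PN M), IsHorChart Y V e σ τ y → ∃ C : ℝ,
    ∀ᶠ p in 𝓝 (0 : ℂ × ℂ), ∀ z, Over V e z (σ p) → ‖p.2 * Ω z (σ p) (fderiv ℂ σ p (1, 0)) (fderiv ℂ σ p (0, 1))‖ ≤ C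
  /-- at most logarithmic poles over `0` -/
  zero : ∀ (k : ℕ) (nd hor : Bool) (σ : ℂ × ℂ → Fin (M + 1) → ℂ) (τ : (Fin (M + 1) → ℂ) → ℂ × ℂ) (y : PN M), IsEndChart Y V e k nd hor σ τ y →
    ∃ C : ℝ, ∀ᶠ p in 𝓝 (0 : ℂ × ℂ), ∀ z, Over V e z (σ p) →
      ‖(if nd = true ∨ hor = true then p.1 * p.2 else p.1) * Ω z (σ p) (fderiv ℂ σ p (1, 0)) (fderiv ℂ σ p (0, 1))‖ ≤ C
  /-- at most logarithmic poles over `∞` -/
  infty : ∀ (k : ℕ) (nd hor : Bool) (σ : ℂ × ℂ → Fin (M + 1) → ℂ) (τ : (Fin (M + 1) → ℂ) → ℂ × ℂ) (y : PN M),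
    IsEndChart Y V (fun y => (e y)⁻¹) k nd hor σ τ y → ∃ C : ℝ, ∀ᶠ p in 𝓝 (0 : ℂ × ℂ), ∀ z, Over V e z (σ p) →
      ‖(if nd = true ∨ hor = true then p.1 * p.2 else p.1) * Ω z (σ p) (fderiv ℂ σ p (1, 0)) (fderiv ℂ σ p (0, 1))‖ ≤ C

/-- The form `Ω` is `0` at all points over `v = exp (z / m)`. -/
def VanishesOver (V : Set (PN M)) (e : PN M → ℂ) (Ω : ℂ → (Fin (M + 1) → ℂ) → (Fin (M + 1) → ℂ) → (Fin (M + 1) → ℂ) → ℂ) (z : ℂ) : Prop :=
  ∀ x, Over V e z x → ∀ v w, IsTangent V x v → IsTangent V x w → Ω z x v w = 0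

/-- The form `Ω` is `0` on no nonempty open set. -/
def IsNowhereZero (V : Set (PN M)) (e : PN M → ℂ) (Ω : ℂ → (Fin (M + 1) → ℂ) → (Fin (M + 1) → ℂ) → (Fin (M + 1) → ℂ) → ℂ) : Prop :=
  ∀ z x, Over V e z x → ∃ᶠ q in 𝓝 (z, x), Over V e q.1 q.2 ∧ ∃ v w, IsTangent V q.2 v ∧ IsTangent V q.2 w ∧ Ω q.1 q.2 v w ≠ 0

/-- For some `m ≥ 1` there is a form as above on `V_m` which is `0` on no nonempty open set, but at all points over `a`, for infinitely many points `a = exp (z / m)`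
of `ℂ^*`. -/
def HasLogForms (Y V : Set (PN M)) (e : PN M → ℂ) : Prop :=
  ∃ m : ℕ, 1 ≤ m ∧ {a : ℂ | ∃ Ω, IsLogForm Y V e m Ω ∧ IsNowhereZero V e Ω ∧ ∀ z : ℂ, Complex.exp (z / m) = a → VanishesOver V e Ω z}.Infinite

/-- The holomorphic sections of `e : V → ℂ^*` over the universal covering `exp : ℂ → ℂ^*`. -/
def sections (V : Set (PN M)) (e : PN M → ℂ) : Set (ℂ → PN M) :=
  {f | HolomorphicInto f Set.univ ∧ (∀ z, f z ∈ V) ∧ ∀ z, e (f z) = Complex.exp z}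

/-- `j` is an injective regular map from the quasi-projective variety `U = locVar P G` to `V`, and `e ∘ j` is a nonconstant rational function. -/
structure IsRegularInto (P : Ideal (MvPolynomial (Fin (N + 1)) ℂ)) {s : ℕ} (G : Fin s → MvPolynomial (Fin (N + 1)) ℂ) (V : Set (PN M))
    (e : PN M → ℂ) (j : PN N → PN M) : Prop where
  maps : ∀ x ∈ locVar P G, j x ∈ V
  inj : ∀ x ∈ locVar P G, ∀ x' ∈ locVar P G, j x = j x' → x = x'
  /-- the function `e ∘ j` on `U` is a nonconstant quotient of two forms of the same degree -/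
  rational : ∃ (D : ℕ) (A B : MvPolynomial (Fin (N + 1)) ℂ), A.IsHomogeneous D ∧ B.IsHomogeneous D ∧ (∀ c : ℂ, A - C c * B ∉ P) ∧ B ∉ P ∧
    ∀ x ∈ locVar P G, e (j x) * eval x.rep B = eval x.rep A
  /-- near every point of `U` the map `j` is given by forms of the same degree -/
  regular : ∀ (x : Fin (N + 1) → ℂ) (hx : x ≠ 0), Projectivization.mk ℂ x hx ∈ locVar P G →
    ∃ (D : ℕ) (γ : Fin (M + 1) → MvPolynomial (Fin (N + 1)) ℂ), (∀ i, (γ i).IsHomogeneous D) ∧ vals γ x ≠ 0 ∧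
      ∀ (x' : Fin (N + 1) → ℂ) (hx' : x' ≠ 0) (h : vals γ x' ≠ 0), Projectivization.mk ℂ x' hx' ∈ locVar P G →
        j (Projectivization.mk ℂ x' hx') = Projectivization.mk ℂ (vals γ x') h

end Pool.Agent.H4.LU
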