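import Pool.Agent.H4.LU.Fin

/-!
# LU Ext: the sections which come from limit curves are entire

* `exists_entire`: local extension gives a global extension.
* `extend_at`: extension at a value `φ z₁`, `φ' z₁ ≠ 0`.
* `section_entire`: if `f (φ z) = J z` with `J` entire and `f` periodic, then `f` extends.
-/

set_option autoImplicit false

open Topology Filter MvPolynomial Metric

noncomputable section

namespace Pool.Agent.H4.LU

open Pool.Agent.H17 (PN VanishesAt HolomorphicInto)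
open Pool.Agent.H62.SA (locVar)
open Pool.Agent.H7.Bir (vals rmap exists_comp pn_identity)
open Pool.Agent.H36.LB (IsLimitPN)

variable {M N : ℕ}

/-- Local extensions give an extension. -/
theorem exists_entire {B : Set ℂ} (hBc : IsClosed B) (hBd : ∀ b, ∀ᶠ w in 𝓝[≠] b, w ∉ B) {f : ℂ → PN M} (hf : HolomorphicInto f Bᶜ)
    (h : ∀ b ∈ B, ∃ g : ℂ → PN M, (∃ r > 0, HolomorphicInto g (ball b r)) ∧ ∀ᶠ w in 𝓝[≠] b, f w = g w) :
    ∃ f' : ℂ → PN M, HolomorphicInto f' Set.univ ∧ ∀ z, z ∉ B → f' z = f z := by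
  classical
  choose g hg hgf using h
  refine ⟨fun z => if hz : z ∈ B then g z hz z else f z, fun z _ => ?_, fun z hz => by simp [hz]⟩
  by_cases hz : z ∈ B
  · obtain ⟨r, hr, hgr⟩ := hg z hz
    obtain ⟨φ, hφ, hφe⟩ := hgr z (mem_ball_self hr)
    refine ⟨φ, hφ, ?_⟩
    have h1 := eventually_nhdsWithin_iff.1 (hgf z hz)
    have h2 := eventually_nhdsWithin_iff.1 (hBd z)
    filter_upwards [hφe, h1, h2] with w h3 h4 h5
    obtain ⟨h6, h7⟩ := h3
    refine ⟨h6, ?_⟩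
    by_cases hwz : w = z
    · subst hwz
      simp only [hz, dite_true]
      exact h7
    · have h8 : w ∉ B := h5 hwz
      simp only [h8, dite_false]
      rw [h4 hwz]
      exact h7
  · obtain ⟨φ, hφ, hφe⟩ := hf z hz
    refine ⟨φ, hφ, ?_⟩
    filter_upwards [hφe, hBc.isOpen_compl.mem_nhds hz] with w h3 h4
    obtain ⟨h6, h7⟩ := h3
    refine ⟨h6, ?_⟩
    simp only [show w ∉ B from h4, dite_false]
    exact h7

/-- Extension at a point `b = φ z₁ - c'`, `φ' z₁ ≠ 0`. -/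
theorem extend_at {f J : ℂ → PN M} (hJ : HolomorphicInto J Set.univ) {φ : ℂ → ℂ} {z₁ b c' : ℂ} (hφ : AnalyticAt ℂ φ z₁) (hφ' : deriv φ z₁ ≠ 0)
    (hb : φ z₁ = b + c') (h : ∀ᶠ z in 𝓝[≠] z₁, J z = f (φ z)) (hper : ∀ᶠ w in 𝓝[≠] b, f (w + c') = f w) :
    ∃ g : ℂ → PN M, (∃ r > 0, HolomorphicInto g (ball b r)) ∧ ∀ᶠ w in 𝓝[≠] b, f w = g w := by
  -- the local inverse
  obtain ⟨ψ, hψ, hψ0, hψφ⟩ : ∃ ψ : ℂ → ℂ, AnalyticAt ℂ ψ (φ z₁) ∧ ψ (φ z₁) = z₁ ∧ ∀ᶠ w in 𝓝 (φ z₁), φ (ψ w) = w := by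
    have hd : HasStrictDerivAt φ (deriv φ z₁) z₁ := hφ.hasStrictDerivAt
    have hcd : ContDiffAt ℂ 1 φ z₁ := hφ.contDiffAt
    let f' : ℂ ≃L[ℂ] ℂ := ContinuousLinearEquiv.unitsEquivAut ℂ (Units.mk0 _ hφ')
    have hfd : HasFDerivAt φ (f' : ℂ →L[ℂ] ℂ) z₁ := hd.hasDerivAt.hasFDerivAt_equiv hφ'
    refine ⟨hcd.localInverse hfd one_ne_zero, ?_, ?_, ?_⟩
    · have h1 : ContDiffAt ℂ 1 (hcd.localInverse hfd one_ne_zero) (φ z₁) := hcd.to_localInverse hfd one_ne_zero
      have h2 : ∀ᶠ w in 𝓝 (φ z₁), DifferentiableAt ℂ (hcd.localInverse hfd one_ne_zero) w := by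
        filter_upwards [h1.eventually (by simp)] with w hw
        exact hw.differentiableAt one_ne_zero
      exact Complex.analyticAt_iff_eventually_differentiableAt.2 h2
    · exact hcd.localInverse_apply_image hfd one_ne_zero
    · exact (hcd.hasStrictFDerivAt' hfd one_ne_zero).eventually_right_inverse
  have hτ : AnalyticAt ℂ (fun w => ψ (w + c')) b := by
    have h1 : AnalyticAt ℂ (fun w : ℂ => w + c') b := analyticAt_id.add analyticAt_const
    exact AnalyticAt.comp (g := ψ) (f := fun w : ℂ => w + c') (by rw [← hb]; exact hψ) h1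
  refine ⟨fun w => J (ψ (w + c')), ?_, ?_⟩
  · obtain ⟨Φ, hΦ, hΦe⟩ := hJ z₁ (Set.mem_univ _)
    have hτ0 : ψ (b + c') = z₁ := by rw [← hb, hψ0]
    obtain ⟨r₁, hr₁, h1⟩ := Metric.eventually_nhds_iff_ball.1 (hΦ.eventually_analyticAt.and hΦe)
    have hτc : Tendsto (fun w => ψ (w + c')) (𝓝 b) (𝓝 z₁) := by
      have := hτ.continuousAt.tendsto
      rwa [hτ0] at this
    obtain ⟨r, hr, h2⟩ := Metric.eventually_nhds_iff_ball.1 (hτ.eventually_analyticAt.and (hτc.eventually (isOpen_ball.mem_nhds (mem_ball_self hr₁))))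
    refine ⟨r, hr, fun w hw => ⟨fun w => Φ (ψ (w + c')), ?_, ?_⟩⟩
    · exact AnalyticAt.comp (g := Φ) (f := fun w => ψ (w + c')) (h1 _ (h2 w hw).2).1 (h2 w hw).1
    · filter_upwards [isOpen_ball.mem_nhds hw] with w' hw'
      exact (h1 _ (h2 w' hw').2).2
  · have h1 : Tendsto (fun w => ψ (w + c')) (𝓝[≠] b) (𝓝[≠] z₁) := by
      rw [tendsto_nhdsWithin_iff]
      refine ⟨?_, ?_⟩
      · have := hτ.continuousAt.tendsto
        rw [← hb, hψ0] at this
        exact this.mono_left nhdsWithin_le_nhds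
      · have h2 : Tendsto (fun w : ℂ => w + c') (𝓝 b) (𝓝 (φ z₁)) := by
          rw [hb]
          exact (continuous_id.add continuous_const).tendsto b
        rw [eventually_nhdsWithin_iff]
        filter_upwards [h2.eventually hψφ] with w h3 h4 h5
        have h5' : ψ (w + c') = z₁ := h5
        rw [h5', hb] at h3
        exact h4 (add_right_cancel h3).symm
    have h2 : Tendsto (fun w : ℂ => w + c') (𝓝[≠] b) (𝓝 (φ z₁)) := by
      rw [hb]
      exact ((continuous_id.add continuous_const).tendsto b).mono_left nhdsWithin_le_nhds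
    filter_upwards [h1.eventually h, h2.eventually hψφ, hper] with w h3 h4 h5
    rw [h3, h4, h5]

/-- A periodic map `f` with isolated singularities extends to all of `ℂ` if `f (φ z)` extends. -/
theorem section_entire {B : Set ℂ} (hBc : IsClosed B) (hBd : ∀ b, ∀ᶠ w in 𝓝[≠] b, w ∉ B) {f : ℂ → PN M} (hf : HolomorphicInto f Bᶜ)
    {c : ℂ} (hper : ∀ k : ℤ, ∀ z, z ∉ B → f (z + k * c) = f z) {φ : ℂ → ℂ} (hφ : ∀ z, AnalyticAt ℂ φ z)
    (hsurj : ∀ b, ∃ (k : ℤ) (z₁ : ℂ), φ z₁ = b + k * c ∧ deriv φ z₁ ≠ 0) {J : ℂ → PN M} (hJ : HolomorphicInto J Set.univ)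
    (h : ∀ z, φ z ∉ B → J z = f (φ z)) : ∃ f' : ℂ → PN M, HolomorphicInto f' Set.univ ∧ ∀ z, z ∉ B → f' z = f z := by
  refine exists_entire hBc hBd hf fun b hb => ?_
  obtain ⟨k, z₁, hz₁, hz₁'⟩ := hsurj b
  refine extend_at hJ (hφ z₁) hz₁' hz₁ ?_ ?_
  · have h1 : Tendsto φ (𝓝[≠] z₁) (𝓝[≠] (φ z₁)) := by
      rw [tendsto_nhdsWithin_iff]
      refine ⟨(hφ z₁).continuousAt.tendsto.mono_left nhdsWithin_le_nhds, ?_⟩
      exact (hφ z₁).hasStrictDerivAt.hasDerivAt.eventually_ne hz₁'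
    filter_upwards [h1.eventually (hBd (φ z₁))] with z hz
    exact h z hz
  · filter_upwards [hBd b] with w hw
    exact hper k w hw

/-- polynomials of degree one or two -/
theorem surj_of_quadratic {a b c₀ c : ℂ} (hab : a ≠ 0 ∨ b ≠ 0) (hc : c ≠ 0) (w : ℂ) :
    ∃ (k : ℤ) (z₁ : ℂ), a * z₁ ^ 2 + b * z₁ + c₀ = w + k * c ∧ deriv (fun z : ℂ => a * z ^ 2 + b * z + c₀) z₁ ≠ 0 := by
  have hd : ∀ z : ℂ, deriv (fun z : ℂ => a * z ^ 2 + b * z + c₀) z = 2 * a * z + b := by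
    intro z
    have h1 : HasDerivAt (fun z : ℂ => a * z ^ 2 + b * z + c₀) (a * (2 * z) + b * 1) z := by
      have h2 := ((hasDerivAt_pow 2 z).const_mul a).add ((hasDerivAt_id z).const_mul b)
      have h3 := h2.add_const c₀
      simpa using h3
    rw [h1.deriv]
    ring
  by_cases ha : a = 0
  · subst ha
    have hb : b ≠ 0 := by simpa using hab
    refine ⟨0, (w - c₀) / b, ?_, ?_⟩
    · have h1 : b * ((w - c₀) / b) = w - c₀ := mul_div_cancel₀ _ hb
      rw [h1]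
      push_cast
      ring
    · rw [hd]
      simpa using hb
  · -- the critical value
    have hkey : ∀ w : ℂ, w ≠ c₀ - b ^ 2 / (4 * a) → ∃ z₁ : ℂ, a * z₁ ^ 2 + b * z₁ + c₀ = w ∧ 2 * a * z₁ + b ≠ 0 := by
      intro w hw
      obtain ⟨s, hs⟩ := IsAlgClosed.exists_pow_nat_eq (b ^ 2 - 4 * a * (c₀ - w)) (by norm_num : 0 < 2)
      have hs0 : s ≠ 0 := by
        rintro rfl
        apply hw
        have h4 : (4 * a) ≠ 0 := mul_ne_zero (by norm_num) ha
        field_simp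
        linear_combination -hs
      refine ⟨(s - b) / (2 * a), ?_, ?_⟩
      · field_simp
        linear_combination hs
      · field_simp
        simpa using hs0
    by_cases hw : w = c₀ - b ^ 2 / (4 * a)
    · obtain ⟨z₁, h1, h2⟩ := hkey (w + (1 : ℤ) * c) (by
        rw [← hw]
        simpa using hc)
      exact ⟨1, z₁, h1, by rw [hd]; exact h2⟩
    · obtain ⟨z₁, h1, h2⟩ := hkey w hw
      exact ⟨0, z₁, by simpa using h1, by rw [hd]; exact h2⟩

end Pool.Agent.H4.LU
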