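import Pool.Agent.H4.LU.Alg
import Pool.Agent.H4.LU.LimMod

/-!
# LU Fin: the last step

* `Caught`: near some point the curve `f` is over finitely many values of `e`, or on finitely many rational curves.
* `exists_form_of_caught`: all these curves are in a proper closed subset of `X`.
* `ggl_of_caught`: the four properties.
-/

set_option autoImplicit false

open Topology Filter MvPolynomial Metric

noncomputable section

namespace Pool.Agent.H4.LU

open Pool.Agent.H17 (PN VanishesAt ZariskiClosedIn HolomorphicInto puncturedDisc vanishesAt_mk_iff)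
open Pool.Agent.H62.FC (Homog)
open Pool.Agent.H17LG.Variety (FunField IsLogGeneralType)
open Pool.Agent.H13.SM (conTan cone)
open Pool.Agent.H13.OT (OrderTwo)
open Pool.Agent.H14.KB (KobayashiHyperbolicModulo)
open Pool.Agent.H62.SA (locVar OnBd)
open Pool.Agent.H7.Bir (GGLOpen mem_of_open)
open Pool.Agent.H36.LB (IsLimitPN LimModPN IsCurveComplement)

variable {M N : ℕ}

/-- Near some point of `ℂ` the curve `f` is in `U`, and at its points `e ∘ j` has one of the finitely many values in `B₀`, or is undefined as a quotient of forms,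
or `j` has its value on one of the curves `w ↦ [p i 0 (w), …, p i M (w)]`. -/
def Caught (P : Ideal (MvPolynomial (Fin (N + 1)) ℂ)) {s : ℕ} (G : Fin s → MvPolynomial (Fin (N + 1)) ℂ) (e : PN M → ℂ) (j : PN N → PN M)
    (B : MvPolynomial (Fin (N + 1)) ℂ) (B₀ : Set ℂ) {ι : Type} (p : ι → Fin (M + 1) → Polynomial ℂ) (f : ℂ → PN N) : Prop :=
  ∃ z₀ : ℂ, ∃ᶠ z in 𝓝[≠] z₀, f z ∈ locVar P G ∧ (e (j (f z)) ∈ B₀ ∨ VanishesAt B (f z) ∨
    ∃ (i : ι) (w : ℂ) (h : (fun a => (p i a).eval w) ≠ 0), j (f z) = Projectivization.mk ℂ _ h)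

/-- identity theorem -/
theorem vanishes_of_frequently {Q : MvPolynomial (Fin (N + 1)) ℂ} {D : ℕ} (hQ : Q.IsHomogeneous D) {f : ℂ → PN N} (hf : HolomorphicInto f Set.univ)
    {z₀ : ℂ} (h : ∃ᶠ z in 𝓝[≠] z₀, VanishesAt Q (f z)) (z : ℂ) : VanishesAt Q (f z) := by
  obtain ⟨φ, hφ, he⟩ := hf z₀ (Set.mem_univ _)
  have h1 : AnalyticAt ℂ (fun z => eval (φ z) Q) z₀ := analyticAt_form Q hφ
  have h2 : ∃ᶠ z in 𝓝[≠] z₀, eval (φ z) Q = 0 := by
    refine (h.and_eventually (he.filter_mono nhdsWithin_le_nhds)).mono ?_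
    rintro z ⟨h3, h4, h5⟩
    rwa [h5, vanishesAt_mk_iff hQ _ h4] at h3
  have h3 : ∀ᶠ z in 𝓝 z₀, eval (φ z) Q = 0 := h1.frequently_zero_iff_eventually_zero.1 h2
  have h4 : ∀ᶠ w in 𝓝 z₀, ∀ R ∈ ({Q} : Set (MvPolynomial (Fin (N + 1)) ℂ)), VanishesAt R (f w) := by
    filter_upwards [h3, he] with w h5 h6 R hR
    obtain ⟨h7, h8⟩ := h6
    rw [Set.mem_singleton_iff.1 hR, h8, vanishesAt_mk_iff hQ _ h7]
    exact h5
  exact Pool.Agent.H36.BP.vanish_identity isPreconnected_univ hf (fun R hR => ⟨D, (Set.mem_singleton_iff.1 hR) ▸ hQ⟩) (Set.mem_univ _) h4 z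
    (Set.mem_univ _) Q rfl

/-- All curves which are caught lie in a proper closed subset. -/
theorem exists_form_of_caught {P : Ideal (MvPolynomial (Fin (N + 1)) ℂ)} [hPp : P.IsPrime] (hP : Homog P) {z : Fin 2 → FunField P}
    (hz : IsTranscendenceBasis ℂ z) (hsm : ∀ y ∈ cone P, Module.finrank ℂ (conTan P y) ≤ 3) {s : ℕ} {G : Fin s → MvPolynomial (Fin (N + 1)) ℂ}
    (hG : ∀ m, ∃ n, (G m).IsHomogeneous n) (hne : (locVar P G).Nonempty) {V : Set (PN M)} {e : PN M → ℂ} {j : PN N → PN M}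
    (hmaps : ∀ x ∈ locVar P G, j x ∈ V)
    (hinj : ∀ x ∈ locVar P G, ∀ x' ∈ locVar P G, j x = j x' → x = x')
    (hreg : ∀ (x : Fin (N + 1) → ℂ) (hx : x ≠ 0), Projectivization.mk ℂ x hx ∈ locVar P G →
      ∃ (D : ℕ) (γ : Fin (M + 1) → MvPolynomial (Fin (N + 1)) ℂ), (∀ i, (γ i).IsHomogeneous D) ∧ Pool.Agent.H7.Bir.vals γ x ≠ 0 ∧
        ∀ (x' : Fin (N + 1) → ℂ) (hx' : x' ≠ 0) (h : Pool.Agent.H7.Bir.vals γ x' ≠ 0), Projectivization.mk ℂ x' hx' ∈ locVar P G →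
          j (Projectivization.mk ℂ x' hx') = Projectivization.mk ℂ (Pool.Agent.H7.Bir.vals γ x') h)
    {D : ℕ} {A B : MvPolynomial (Fin (N + 1)) ℂ} (hA : A.IsHomogeneous D) (hB : B.IsHomogeneous D) (hAB : ∀ c : ℂ, A - C c * B ∉ P) (hBP : B ∉ P)
    (heq : ∀ x ∈ locVar P G, e (j x) * eval x.rep B = eval x.rep A)
    {ι : Type} [Finite ι] (p : ι → Fin (M + 1) → Polynomial ℂ) {B₀ : Set ℂ} (hB₀ : B₀.Finite) :
    ∃ (n : ℕ) (Q : MvPolynomial (Fin (N + 1)) ℂ), Q.IsHomogeneous n ∧ Q ∉ P ∧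
      ∀ f : ℂ → PN N, HolomorphicInto f Set.univ → Caught P G e j B B₀ p f → ∀ z, VanishesAt Q (f z) := by
  classical
  haveI := Fintype.ofFinite ι
  choose d R hR hRP hRv using fun i => exists_form_of_rational hP hz hsm hG hne hinj hreg (p i)
  have hAc : ∀ c : ℂ, (A - C c * B).IsHomogeneous D := by
    intro c
    have h1 := (isHomogeneous_C (Fin (N + 1)) c).mul hB
    rw [zero_add] at h1
    exact hA.sub h1
  let S := hB₀.toFinset
  refine ⟨_, (∏ i, R i) * ((∏ c ∈ S, (A - C c * B)) * B), (IsHomogeneous.prod _ _ _ fun i _ => hR i).mul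
    ((IsHomogeneous.prod _ _ _ fun c _ => hAc c).mul hB), ?_, ?_⟩
  · intro h
    rcases hPp.mem_or_mem h with h1 | h1
    · obtain ⟨i, -, hi⟩ := (Ideal.IsPrime.prod_mem_iff (s := Finset.univ)).1 h1
      exact hRP i hi
    · rcases hPp.mem_or_mem h1 with h2 | h2
      · obtain ⟨c, -, hc⟩ := (Ideal.IsPrime.prod_mem_iff (s := S)).1 h2
        exact hAB c hc
      · exact hBP h2
  · rintro f hf ⟨z₀, hfr⟩
    refine vanishes_of_frequently ((IsHomogeneous.prod _ _ _ fun i _ => hR i).mul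
      ((IsHomogeneous.prod _ _ _ fun c _ => hAc c).mul hB)) hf (hfr.mono ?_)
    rintro z ⟨hzU, h1 | h1 | ⟨i, w, h, h1⟩⟩
    · unfold VanishesAt
      rw [map_mul, map_mul, map_prod (eval (f z).rep) _ S]
      have h2 := heq _ hzU
      have h3 : eval (f z).rep (A - C (e (j (f z))) * B) = 0 := by
        rw [map_sub, map_mul, eval_C, h2, sub_self]
      rw [Finset.prod_eq_zero (i := e (j (f z))) (hB₀.mem_toFinset.2 h1) h3]
      ring
    · unfold VanishesAt at h1 ⊢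
      rw [map_mul, map_mul, h1]
      ring
    · have h2 := hRv i (f z) hzU ⟨w, h, h1⟩
      unfold VanishesAt at h2 ⊢
      rw [map_mul, map_prod, Finset.prod_eq_zero (Finset.mem_univ i) h2]
      ring

/-- **The last step.** -/
theorem ggl_of_caught {P : Ideal (MvPolynomial (Fin (N + 1)) ℂ)} [hPp : P.IsPrime] (hP : Homog P) {z : Fin 2 → FunField P}
    (hz : IsTranscendenceBasis ℂ z) (hsm : ∀ y : Fin (N + 1) → ℂ, y ≠ 0 → (∀ Q ∈ P, eval y Q = 0) → Module.finrank ℂ (conTan P y) ≤ 3)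
    {s : ℕ} {G : Fin s → MvPolynomial (Fin (N + 1)) ℂ}
    (hG : ∀ m, ∃ n, (G m).IsHomogeneous n) (hne : (locVar P G).Nonempty) (hO : IsCurveComplement P G)
    (hgt : IsLogGeneralType (K := FunField P) (k := 2) (OnBd P G)) {V : Set (PN M)} {e : PN M → ℂ} {j : PN N → PN M}
    (hj : IsRegularInto P G V e j) {ι : Type} [Finite ι] (p : ι → Fin (M + 1) → Polynomial ℂ) {B₀ : Set ℂ} (hB₀ : B₀.Finite)
    (hc : ∀ (A B : MvPolynomial (Fin (N + 1)) ℂ) (D : ℕ), A.IsHomogeneous D → B.IsHomogeneous D → (∀ c : ℂ, A - C c * B ∉ P) → B ∉ P →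
      (∀ x ∈ locVar P G, e (j x) * eval x.rep B = eval x.rep A) →
      ∀ (l : Filter ℕ) (F : ℕ → ℂ → PN N) (f : ℂ → PN N), IsLimitPN (locVar P G) l F f → OrderTwo f → (∃ z w, f z ≠ f w) →
        Caught P G e j B B₀ p f) :
    ∃ Ξ : Set (PN N), GGLOpen P G Ξ ∧ ∃ (Q : MvPolynomial (Fin (N + 1)) ℂ) (D : ℕ), Q.IsHomogeneous D ∧
      (∃ x ∈ locVar P G, ¬ VanishesAt Q x) ∧ (∀ x, x ∈ Ξ ↔ x ∈ locVar P G ∧ VanishesAt Q x) ∧ KobayashiHyperbolicModulo (locVar P G) Q D := by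
  obtain ⟨D, A, B, hA, hB, hAB, hBP, heq⟩ := hj.rational
  obtain ⟨n, Q₀, hQ₀, hQ₀P, hQ₀v⟩ := exists_form_of_caught hP hz (fun y hy => hsm y hy.1 hy.2) hG hne hj.maps hj.inj hj.regular hA hB hAB hBP heq p hB₀
  exact ggl_of_limMod hP hz hsm hG hne hO hgt hQ₀ hQ₀P fun l F f hf hord hn z hzU =>
    ⟨hzU, hQ₀v f hf.hol (hc A B D hA hB hAB hBP heq l F f hf hord hn) z⟩

end Pool.Agent.H4.LU
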