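import Pool.Agent.H4.LU.Ext
import Pool.Agent.H7.Per.Main

/-!
# LU Out: interface between the dynamical part and the last step (project LOG-U)

* `LimSec`: limits of sections over `Ω`.
* `Out`: what is known of the members of `S(ℂ)` and `S(half plane)`, in `ℙ^M`.
* `Const`: limit curves in the fibres.
* `Lim`: what is known of `j ∘ f` for a limit curve `f` of order two.
-/

set_option autoImplicit false

open Topology Filter MvPolynomial Metric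

noncomputable section

namespace Pool.Agent.H4.LU

open Pool.Agent.H17 (PN VanishesAt HolomorphicInto)
open Pool.Agent.H62.SA (locVar)
open Pool.Agent.H7.Per (prP)
open Pool.Agent.H36.LB (ConvPN IsLimitPN)

variable {M N : ℕ}

/-- Near `z` the map `g` is a holomorphic section of `e : V → ℂ^*` over `exp`. -/
def SecPN (V : Set (PN M)) (e : PN M → ℂ) (g : ℂ → PN M) (z : ℂ) : Prop :=
  (∃ φ : ℂ → Fin (M + 1) → ℂ, AnalyticAt ℂ φ z ∧ ∀ᶠ w in 𝓝 z, ∃ h : φ w ≠ 0, g w = Projectivization.mk ℂ (φ w) h) ∧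
    ∀ᶠ w in 𝓝 z, g w ∈ V ∧ e (g w) = Complex.exp w

/-- On `Ω`, outside the set `Z` without limit points in `Ω`, the map `f` is the locally uniform limit of maps which are sections over neighbourhoods of
larger and larger compact subsets of `Ω`. -/
def LimSec (V : Set (PN M)) (e : PN M → ℂ) (Ω Z : Set ℂ) (f : ℂ → PN M) : Prop :=
  (∀ z ∈ Ω, ∀ᶠ w in 𝓝[≠] z, w ∉ Z) ∧ ∃ (l : Filter ℕ) (G : ℕ → ℂ → PN M), l.NeBot ∧
    (∀ K : Set ℂ, K ⊆ Ω → IsCompact K → ∀ᶠ n in l, ∀ z ∈ K, SecPN V e (G n) z) ∧ ∀ z ∈ Ω, z ∉ Z → ConvPN l G f z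

/-- the half plane `{ρ < σ Im z}` -/
def HPl (σ ρ : ℝ) : Set ℂ := {z | ρ < σ * z.im}

/-- The members of `S(ℂ)` are finitely many maps `f i`, outside the discrete set `B`, and the members of `S(half plane)` are restrictions of these maps. -/
structure Out (V : Set (PN M)) (e : PN M → ℂ) (q : ℕ) (B : Set ℂ) {ι : Type} (f : ι → ℂ → PN M) : Prop where
  q_pos : 1 ≤ q
  closed : IsClosed B
  discrete : ∀ z, ∀ᶠ w in 𝓝[≠] z, w ∉ B
  B_inv : ∀ b ∈ B, ∀ k : ℤ, b + k * (2 * Real.pi * Complex.I * q) ∈ B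
  B_re : ∃ W : ℝ, ∀ b ∈ B, |b.re| ≤ W
  hol : ∀ i, HolomorphicInto (f i) Bᶜ
  per : ∀ i, ∀ z, z ∉ B → f i (z + 2 * Real.pi * Complex.I * q) = f i z
  short : ∀ i, ∀ R ε : ℝ, 0 < ε → ∃ X₀ : ℝ, ∀ z w : ℂ, X₀ < |z.re| → ‖w - z‖ ≤ R → dist (prP (f i w)) (prP (f i z)) < ε
  full : ∀ (Z : Set ℂ) (g : ℂ → PN M), LimSec V e Set.univ Z g → ∃ i, ∀ z, z ∉ B → z ∉ Z → g z = f i z
  half : ∀ σ ρ : ℝ, σ = 1 ∨ σ = -1 → ∀ (Z : Set ℂ) (g : ℂ → PN M), LimSec V e (HPl σ ρ) Z g → ∃ i, ∀ z ∈ HPl σ ρ, z ∉ B → z ∉ Z → g z = f i z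

/-- An entire curve in a fibre of `e` over a value not in `B₀`, which is a limit of discs in `V`, is constant. -/
def Const (V : Set (PN M)) (e : PN M → ℂ) (B₀ : Set ℂ) : Prop :=
  ∀ (l : Filter ℕ) (G : ℕ → ℂ → PN M) (g : ℂ → PN M) (c : ℂ), l.NeBot → l ≤ atTop → HolomorphicInto g Set.univ →
    (∀ n : ℕ, HolomorphicInto (G n) (ball 0 (n + 1)) ∧ ∀ z ∈ ball (0 : ℂ) (n + 1), G n z ∈ V) → c ∉ B₀ →
    (∀ z₀ : ℂ, ∀ᶠ z in 𝓝[≠] z₀, ConvPN l G g z ∧ g z ∈ V ∧ e (g z) = c) → ∀ z w, g z = g w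

/-- What is known of `j ∘ f` for a limit curve `f` of order two on which the form `B` is not identically zero: `e ∘ j ∘ f = exp φ`, `φ` a polynomial of degree at
most two, and the maps `j ∘ f ∘ ψ`, `φ ∘ ψ = id`, are limits of sections. -/
def Lim (V : Set (PN M)) (e : PN M → ℂ) (j : PN N → PN M) (l : Filter ℕ) (F : ℕ → ℂ → PN N) (f : ℂ → PN N) (a b c : ℂ) : Prop :=
  (∀ z, ConvPN l F f z → e (j (f z)) = Complex.exp (a * z ^ 2 + b * z + c)) ∧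
    ∀ (Ω : Set ℂ) (ψ : ℂ → ℂ), IsOpen Ω → Convex ℝ Ω → DifferentiableOn ℂ ψ Ω → (∀ z ∈ Ω, a * ψ z ^ 2 + b * ψ z + c = z) →
      LimSec V e Ω {z | ¬ ConvPN l F f (ψ z)} (fun z => j (f (ψ z)))

end Pool.Agent.H4.LU
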